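import Mathlib

/-!
# Shortest paths: algorithms which hash rational functions of the weights and compare paths

A directed graph has three layers of `n` vertices. The edges are `a i k` from the vertex `i` of the
first layer to the vertex `k` of the second layer, `b k j` from the vertex `k` of the second layer to
the vertex `j` of the third layer, and `c i j` from the vertex `i` of the first layer to the vertex
`j` of the third layer. The weights are integers.
-/

set_option autoImplicit false

open MeasureTheory
open scoped ENNReal

namespace Pool.Agent.J4.H34.RH

/-- The edges of the graph. -/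
inductive Edge (n : ℕ) : Type
  | a (i k : Fin n) : Edge n
  | b (k j : Fin n) : Edge n
  | c (i j : Fin n) : Edge n
  deriving DecidableEq, Fintype

/-- The length of the path from `i` to `j` through `k` (`some k`), or of the edge from `i` to `j`
(`none`). -/
def pathLen {n : ℕ} (w : Edge n → ℤ) (i j : Fin n) : Option (Fin n) → ℤ
  | none => w (.c i j)
  | some k => w (.a i k) + w (.b k j)

/-- The weights given by a potential `x` on the vertices (`x 0`, `x 1`, `x 2` on the first, second,
third layer), for which all paths from `i` to `j` have the same length. -/
def pot {n : ℕ} (x : Fin 3 × Fin n → ℤ) : Edge n → ℤ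
  | .a i k => x (0, i) - x (1, k)
  | .b k j => x (1, k) - x (2, j)
  | .c i j => x (0, i) - x (2, j)

/-- A signed sum of `κ` products of `deg` weights, where `deg ≤ d`; the signs may be zero. -/
structure Test (n κ d : ℕ) where
  /-- the number of factors of each product -/
  deg : Fin (d + 1)
  /-- the signs -/
  sgn : Fin κ → SignType
  /-- the factors -/
  fac : Fin κ → Fin deg → Edge n

/-- The value of the signed sum. -/
def Test.val {n κ d : ℕ} (t : Test n κ d) (w : Edge n → ℤ) : ℤ :=
  ∑ l, (t.sgn l : ℤ) * ∏ m, w (t.fac l m)

/-- The signed sum is not zero for all weights given by potentials. -/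
def Test.Nondegenerate {n κ d : ℕ} (t : Test n κ d) : Prop :=
  ∃ x : Fin 3 × Fin n → ℤ, t.val (pot x) ≠ 0

/-- A rational function (numerator and denominator) of the weights over one of the fields `K i`. -/
structure Form {ι : Type} (K : ι → Type) [∀ i, Field (K i)] (n : ℕ) where
  /-- the field -/
  idx : ι
  /-- the numerator -/
  num : MvPolynomial (Edge n) (K idx)
  /-- the denominator -/
  den : MvPolynomial (Edge n) (K idx)

section

variable {ι : Type} {K : ι → Type} [∀ i, Field (K i)] {n κ d : ℕ} {β : Type}

/-- The value of a rational function, together with the name of the field. -/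
noncomputable def Form.val (u : Form K n) (w : Edge n → ℤ) : Σ i, K i :=
  ⟨u.idx, MvPolynomial.eval (fun e => (w e : K u.idx)) u.num /
    MvPolynomial.eval (fun e => (w e : K u.idx)) u.den⟩

variable (K n κ d β) in
/-- Deterministic algorithms: such an algorithm stops with an output in `β`; or it computes the
value of a rational function and continues according to the answer `e : ℕ → Bool` of the hash table,
where `e s` says whether the new value is equal to the `s`-th value computed before; or it compares
the lengths of two paths (or edges) with the same ends; or it asks for the sign of a signed sum of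
products; or it asks for the leading digits of all weights. -/
inductive Prog : Type
  | out (b : β) : Prog
  | hash (u : Form K n) (next : (ℕ → Bool) → Prog) : Prog
  | path (i j : Fin n) (o o' : Option (Fin n)) (next : SignType → Prog) : Prog
  | test (t : Test n κ d) (next : SignType → Prog) : Prog
  | lead (next : (Edge n → ℤ) → Prog) : Prog

/-- The numerators and denominators of all hashed rational functions have degree at most `Δ`, the
denominators are not the zero polynomial, and all signed sums whose signs are asked are
nondegenerate. -/
def Prog.Uses (Δ : ℕ) : Prog K n κ d β → Prop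
  | .out _ => True
  | .hash u next => (u.num.totalDegree ≤ Δ ∧ u.den.totalDegree ≤ Δ ∧ u.den ≠ 0) ∧
      ∀ e, (next e).Uses Δ
  | .path _ _ _ _ next => ∀ e, (next e).Uses Δ
  | .test t next => t.Nondegenerate ∧ ∀ e, (next e).Uses Δ
  | .lead next => ∀ e, (next e).Uses Δ

open Classical in
/-- The answer of the hash table: which of the earlier values (those of the rational functions in
`h`) are equal to the value of `u`. -/
noncomputable def lookup (w : Edge n → ℤ) (h : List (Form K n)) (u : Form K n) (s : ℕ) : Bool :=
  decide (∃ v, h[s]? = some v ∧ v.val w = u.val w)

/-- The run on the weights `w` after the rational functions in `h` have been hashed: the number of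
hashed rational functions, the number of comparisons of paths, and the output. The signs of signed
sums of products and the leading digits `⌊w e / D⌋` of the weights are free. -/
noncomputable def Prog.run (D : ℕ) (w : Edge n → ℤ) : Prog K n κ d β → List (Form K n) → ℕ × ℕ × β
  | .out b, _ => (0, 0, b)
  | .hash u next, h => (((next (lookup w h u)).run D w (h ++ [u])).1 + 1,
      ((next (lookup w h u)).run D w (h ++ [u])).2)
  | .path i j o o' next, h =>
      (((next (SignType.sign (pathLen w i j o - pathLen w i j o'))).run D w h).1,
      ((next (SignType.sign (pathLen w i j o - pathLen w i j o'))).run D w h).2.1 + 1,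
      ((next (SignType.sign (pathLen w i j o - pathLen w i j o'))).run D w h).2.2)
  | .test t next, h => (next (SignType.sign (t.val w))).run D w h
  | .lead next, h => (next fun e => w e / (D : ℤ)).run D w h

/-- The number of hashed rational functions. -/
noncomputable def Prog.hashes (p : Prog K n κ d β) (D : ℕ) (w : Edge n → ℤ) : ℕ := (p.run D w []).1

/-- The number of comparisons of paths. -/
noncomputable def Prog.paths (p : Prog K n κ d β) (D : ℕ) (w : Edge n → ℤ) : ℕ := (p.run D w []).2.1

/-- The output. -/
noncomputable def Prog.output (p : Prog K n κ d β) (D : ℕ) (w : Edge n → ℤ) : β :=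
  (p.run D w []).2.2

end

/-- The weights are integers in `{1, …, N}`. -/
def Valid {n : ℕ} (N : ℕ) (w : Edge n → ℤ) : Prop := ∀ e, 1 ≤ w e ∧ w e ≤ N

/-- Some path of two edges is shorter than the edge with the same ends, i.e. the distance of the
vertices `i` and `j` is smaller than the weight of the edge from `i` to `j`. -/
def Shortcut {n : ℕ} (w : Edge n → ℤ) : Prop :=
  ∃ i j k, pathLen w i j (some k) < pathLen w i j none

/-- `σ i j` is a shortest path from `i` to `j`, for all `i` and `j`. -/
def Shortest {n : ℕ} (w : Edge n → ℤ) (σ : Fin n → Fin n → Option (Fin n)) : Prop :=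
  ∀ i j o, pathLen w i j (σ i j) ≤ pathLen w i j o

/-- For all weights in `{1, …, N}` the random algorithm `p` hashes at most `H` rational functions on
the average and makes at most `T` comparisons of paths on the average, and its output satisfies the
specification `Spec w` with probability at least `2 / 3`. It uses only rational functions of degree
at most `Δ` and nondegenerate signed sums. -/
structure Solves {ι : Type} {K : ι → Type} [∀ i, Field (K i)] {n κ d : ℕ} {β : Type} (Δ D N : ℕ)
    (Spec : (Edge n → ℤ) → β → Prop) (H T : ℝ) {Ω : Type} [MeasurableSpace Ω] (μ : Measure Ω)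
    (p : Ω → Prog K n κ d β) : Prop where
  uses : ∀ ω, (p ω).Uses Δ
  measurable_hashes : ∀ w, Valid N w → Measurable fun ω => (p ω).hashes D w
  measurable_paths : ∀ w, Valid N w → Measurable fun ω => (p ω).paths D w
  measurable_output : ∀ w, Valid N w → MeasurableSet {ω | Spec w ((p ω).output D w)}
  hashes_le : ∀ w, Valid N w → ∫⁻ ω, ((p ω).hashes D w : ℝ≥0∞) ∂μ ≤ ENNReal.ofReal H
  paths_le : ∀ w, Valid N w → ∫⁻ ω, ((p ω).paths D w : ℝ≥0∞) ∂μ ≤ ENNReal.ofReal T
  correct : ∀ w, Valid N w → ENNReal.ofReal (2 / 3) ≤ μ {ω | Spec w ((p ω).output D w)}

end Pool.Agent.J4.H34.RH
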