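import Mathlib
import Pool.Agent.J4.H34.RH.Model

/-!
# The default run, and the number of inputs which leave it
-/

set_option autoImplicit false
set_option linter.unusedSectionVars false

open Finset MeasureTheory
open scoped ENNReal

namespace Pool.Agent.J4.H34.RH

/-! ### Zeros of polynomials -/

/-- Schwartz-Zippel for shifted boxes -/
lemma sz {σ : Type*} [Fintype σ] [DecidableEq σ] {R : Type*} [CommRing R] [IsDomain R]
    [DecidableEq R]
    (P : MvPolynomial σ R) (hP : P ≠ 0) {q : ℕ} (hq : 0 < q) (f : σ → ℕ → R)
    (hf : ∀ e, Set.InjOn (f e) (Set.Iio q)) :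
    ((Fintype.piFinset fun _ : σ => range q).filter
      fun ν => MvPolynomial.eval (fun e => f e (ν e)) P = 0).card * q ≤
      P.totalDegree * q ^ Fintype.card σ := by
  classical
  set m := Fintype.card σ with hm
  let g : σ ≃ Fin m := Fintype.equivFin σ
  set P' : MvPolynomial (Fin m) R := MvPolynomial.rename g P with hP'
  have hP'0 : P' ≠ 0 := by
    intro h
    apply hP
    apply MvPolynomial.rename_injective g g.injective
    rw [← hP', h, map_zero]
  set S : Fin m → Finset R := fun i => (range q).image (f (g.symm i)) with hS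
  have hSq : ∀ i, (S i).card = q := by
    intro i
    rw [hS, card_image_of_injOn, card_range]
    intro a ha b hb hab
    exact hf _ (by simpa using ha) (by simpa using hb) hab
  have h1 := MvPolynomial.schwartz_zippel_sup_sum hP'0 S
  have h2 : ((Fintype.piFinset fun _ : σ => range q).filter
      fun ν => MvPolynomial.eval (fun e => f e (ν e)) P = 0).card ≤
      ((Fintype.piFinset fun i : Fin m => S i).filter
        fun x => MvPolynomial.eval x P' = 0).card := by
    apply card_le_card_of_injOn (fun ν i => f (g.symm i) (ν (g.symm i)))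
    · intro ν hν
      simp only [coe_filter, Fintype.mem_piFinset, mem_range, Set.mem_ofPred_eq] at hν ⊢
      refine ⟨fun i => ?_, ?_⟩
      · rw [hS, mem_image]
        exact ⟨ν (g.symm i), mem_range.2 (hν.1 _), rfl⟩
      · rw [hP', MvPolynomial.eval_rename]
        have : (fun i => f (g.symm i) (ν (g.symm i))) ∘ g = fun e => f e (ν e) := by
          funext e
          simp
        rw [this]
        exact hν.2
    · intro ν hν ν' hν' heq
      simp only [coe_filter, Fintype.mem_piFinset, mem_range, Set.mem_ofPred_eq] at hν hν'
      funext e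
      have h3 := congrFun heq (g e)
      simp only [Equiv.symm_apply_apply] at h3
      exact hf e (hν.1 e) (hν'.1 e) h3
  have h3 : (P'.support.sup fun s ↦ ∑ i, (s i / #(S i) : ℚ≥0)) ≤ (P.totalDegree : ℚ≥0) / q := by
    apply Finset.sup_le
    intro s hs
    have h4 : ∑ i, (s i / #(S i) : ℚ≥0) = (∑ i, (s i : ℚ≥0)) / q := by
      rw [Finset.sum_div]
      refine sum_congr rfl fun i _ => ?_
      rw [hSq]
    rw [h4]
    gcongr
    have h5 : ∑ i, s i ≤ P'.totalDegree := by
      have := MvPolynomial.le_totalDegree hs
      rwa [Finsupp.sum_fintype _ _ (fun _ => rfl)] at this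
    have h6 : P'.totalDegree ≤ P.totalDegree := MvPolynomial.totalDegree_rename_le _ _
    exact_mod_cast h5.trans h6
  have h4 : (∏ i, (#(S i) : ℚ≥0)) = (q : ℚ≥0) ^ m := by
    rw [prod_congr rfl fun i _ => by rw [hSq i]]
    simp
  rw [h4] at h1
  have h5 := h1.trans h3
  have hq' : (0 : ℚ≥0) < q := by exact_mod_cast hq
  rw [div_le_div_iff₀ (by positivity) hq'] at h5
  have h6 : ((Fintype.piFinset fun i : Fin m => S i).filter
        fun x => MvPolynomial.eval x P' = 0).card * q ≤ P.totalDegree * q ^ m := by
    exact_mod_cast h5
  exact (Nat.mul_le_mul_right _ h2).trans h6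

section

variable {ι : Type} {K : ι → Type} [∀ i, Field (K i)] {n κ d : ℕ} {β : Type}

/-! ### Formal equality of rational functions -/

/-- the rational function as an element of the field of fractions -/
noncomputable def Form.frac (u : Form K n) :
    Σ i, FractionRing (MvPolynomial (Edge n) (K i)) :=
  ⟨u.idx, algebraMap _ _ u.num / algebraMap _ _ u.den⟩

/-- the bounds for a rational function -/
def Form.Ok (Δ : ℕ) (u : Form K n) : Prop :=
  u.num.totalDegree ≤ Δ ∧ u.den.totalDegree ≤ Δ ∧ u.den ≠ 0

/-- a box of noises -/
def box (n q : ℕ) : Finset (Edge n → ℕ) := Fintype.piFinset fun _ : Edge n => range q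

lemma box_card (n q : ℕ) : (box n q).card = q ^ Fintype.card (Edge n) := by
  rw [box, Fintype.card_piFinset]
  simp

/-- the field is large enough -/
def Big (q : ℕ) (K : ι → Type) [∀ i, Field (K i)] : Prop :=
  ∀ i, ∀ m : ℕ, 0 < m → m < q → (m : K i) ≠ 0

lemma Big.injOn {q : ℕ} (h : Big q K) (i : ι) (b : ℤ) :
    Set.InjOn (fun z : ℕ => (((b + z : ℤ)) : K i)) (Set.Iio q) := by
  have key : ∀ a c : ℕ, a < c → c < q → (((b + a : ℤ)) : K i) ≠ (((b + c : ℤ)) : K i) := by
    intro a c hac hc heq
    apply h i (c - a) (by omega) (by omega)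
    rw [Nat.cast_sub hac.le]
    push_cast at heq
    have := add_left_cancel heq
    rw [this, sub_self]
  intro a ha c hc heq
  rcases lt_trichotomy a c with h1 | h1 | h1
  · exact absurd heq (key a c h1 hc)
  · exact h1
  · exact absurd heq.symm (key c a h1 ha)

open Classical in
/-- the noises at which a polynomial vanishes -/
lemma zeros_le {q : ℕ} (hq : 0 < q) (hK : Big q K) {i : ι} (P : MvPolynomial (Edge n) (K i))
    (hP : P ≠ 0) {δ : ℕ} (hδ : P.totalDegree ≤ δ) (b : Edge n → ℤ) :
    ((box n q).filter fun ν => MvPolynomial.eval (fun e => (((b e + ν e : ℤ)) : K i)) P = 0).card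
      * q ≤ δ * (box n q).card := by
  rw [box_card]
  exact (sz P hP hq (fun e z => (((b e + z : ℤ)) : K i)) (fun e => hK.injOn i (b e))).trans
    (Nat.mul_le_mul_right _ hδ)

open Classical in
/-- the noises at which the values of two rational functions do not behave generically -/
lemma pair_le {q Δ : ℕ} (hq : 0 < q) (hK : Big q K) (u v : Form K n) (hu : u.Ok Δ) (hv : v.Ok Δ)
    (b : Edge n → ℤ) :
    ((box n q).filter fun ν => ¬ (u.frac = v.frac ↔
      u.val (fun e => b e + ν e) = v.val (fun e => b e + ν e))).card * q ≤
      4 * Δ * (box n q).card := by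
  obtain ⟨i, nu, du⟩ := u
  obtain ⟨j, nv, dv⟩ := v
  obtain ⟨hu1, hu2, hu3⟩ := hu
  obtain ⟨hv1, hv2, hv3⟩ := hv
  simp only at hu1 hu2 hu3 hv1 hv2 hv3
  by_cases hij : i = j
  swap
  · have : ((box n q).filter fun ν : Edge n → ℕ => ¬ ((⟨i, nu, du⟩ : Form K n).frac =
        (⟨j, nv, dv⟩ : Form K n).frac ↔ (⟨i, nu, du⟩ : Form K n).val (fun e => b e + ν e) =
        (⟨j, nv, dv⟩ : Form K n).val (fun e => b e + ν e))) = ∅ := by
      apply filter_eq_empty_iff.2
      intro ν _
      rw [not_not]
      constructor
      · intro h
        exact absurd (congrArg Sigma.fst h) hij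
      · intro h
        exact absurd (congrArg Sigma.fst h) hij
    rw [this]
    simp
  subst hij
  have hcross : (⟨i, nu, du⟩ : Form K n).frac = (⟨i, nv, dv⟩ : Form K n).frac ↔
      nu * dv - nv * du = 0 := by
    unfold Form.frac
    simp only [Sigma.mk.injEq, heq_eq_eq, true_and]
    have hinj := IsFractionRing.injective (MvPolynomial (Edge n) (K i))
      (FractionRing (MvPolynomial (Edge n) (K i)))
    have e1 : algebraMap (MvPolynomial (Edge n) (K i))
        (FractionRing (MvPolynomial (Edge n) (K i))) du ≠ 0 := by
      intro h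
      exact hu3 (hinj (by rw [h, map_zero]))
    have e2 : algebraMap (MvPolynomial (Edge n) (K i))
        (FractionRing (MvPolynomial (Edge n) (K i))) dv ≠ 0 := by
      intro h
      exact hv3 (hinj (by rw [h, map_zero]))
    rw [div_eq_div_iff e1 e2, ← map_mul, ← map_mul, hinj.eq_iff, sub_eq_zero]
  set Z : MvPolynomial (Edge n) (K i) → Finset (Edge n → ℕ) := fun P =>
    (box n q).filter fun ν => MvPolynomial.eval (fun e => (((b e + ν e : ℤ)) : K i)) P = 0 with hZ
  have hsub : ((box n q).filter fun ν : Edge n → ℕ => ¬ ((⟨i, nu, du⟩ : Form K n).frac =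
        (⟨i, nv, dv⟩ : Form K n).frac ↔ (⟨i, nu, du⟩ : Form K n).val (fun e => b e + ν e) =
        (⟨i, nv, dv⟩ : Form K n).val (fun e => b e + ν e))) ⊆
      (Z du ∪ Z dv) ∪ (if nu * dv - nv * du = 0 then ∅ else Z (nu * dv - nv * du)) := by
    intro ν hν
    rw [mem_filter] at hν
    obtain ⟨hν0, hν⟩ := hν
    by_contra hcon
    rw [mem_union, mem_union, not_or, not_or] at hcon
    obtain ⟨⟨h1, h2⟩, h3⟩ := hcon
    simp only [hZ, mem_filter, hν0, true_and] at h1 h2
    apply hν
    rw [hcross]
    unfold Form.val
    simp only [Sigma.mk.injEq, heq_eq_eq, true_and]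
    rw [div_eq_div_iff h1 h2, ← map_mul, ← map_mul]
    constructor
    · intro h
      rw [sub_eq_zero.1 h]
    · intro h
      by_contra hne
      rw [if_neg hne] at h3
      exact h3 (mem_filter.2 ⟨hν0, by rw [map_sub, h, sub_self]⟩)
  have z1 : (Z du).card * q ≤ Δ * (box n q).card := zeros_le hq hK du hu3 hu2 b
  have z2 : (Z dv).card * q ≤ Δ * (box n q).card := zeros_le hq hK dv hv3 hv2 b
  have z3 : (if nu * dv - nv * du = 0 then ∅ else Z (nu * dv - nv * du)).card * q ≤
      2 * Δ * (box n q).card := by
    split_ifs with h
    · simp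
    · apply zeros_le hq hK _ h _ b
      refine (MvPolynomial.totalDegree_sub _ _).trans ?_
      apply max_le
      · refine (MvPolynomial.totalDegree_mul _ _).trans ?_
        omega
      · refine (MvPolynomial.totalDegree_mul _ _).trans ?_
        omega
  calc _ ≤ ((Z du ∪ Z dv) ∪ (if nu * dv - nv * du = 0 then ∅ else Z (nu * dv - nv * du))).card * q :=
        Nat.mul_le_mul_right _ (card_le_card hsub)
    _ ≤ ((Z du).card + (Z dv).card +
        (if nu * dv - nv * du = 0 then ∅ else Z (nu * dv - nv * du)).card) * q := by
        apply Nat.mul_le_mul_right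
        exact (card_union_le _ _).trans (Nat.add_le_add_right (card_union_le _ _) _)
    _ = (Z du).card * q + (Z dv).card * q +
        (if nu * dv - nv * du = 0 then ∅ else Z (nu * dv - nv * du)).card * q := by ring
    _ ≤ Δ * (box n q).card + Δ * (box n q).card + 2 * Δ * (box n q).card := by
        exact add_le_add (add_le_add z1 z2) z3
    _ = 4 * Δ * (box n q).card := by ring

/-! ### Runs with arbitrary answers -/

/-- answers to all questions -/
structure Oracle {ι : Type} (K : ι → Type) [∀ i, Field (K i)] (n κ d : ℕ) where
  /-- comparisons of paths -/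
  path : Fin n → Fin n → Option (Fin n) → Option (Fin n) → SignType
  /-- signs of signed sums -/
  test : Test n κ d → SignType
  /-- the leading digits -/
  lead : Edge n → ℤ

open Classical in
/-- the formal answer of the hash table -/
noncomputable def flookup (h : List (Form K n)) (u : Form K n) (s : ℕ) : Bool :=
  decide (∃ v, h[s]? = some v ∧ v.frac = u.frac)

/-- the default run -/
noncomputable def Prog.runO (O : Oracle K n κ d) : Prog K n κ d β → List (Form K n) → ℕ × ℕ × β
  | .out b, _ => (0, 0, b)
  | .hash u next, h => (((next (flookup h u)).runO O (h ++ [u])).1 + 1,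
      ((next (flookup h u)).runO O (h ++ [u])).2)
  | .path i j o o' next, h =>
      (((next (O.path i j o o')).runO O h).1, ((next (O.path i j o o')).runO O h).2.1 + 1,
        ((next (O.path i j o o')).runO O h).2.2)
  | .test t next, h => (next (O.test t)).runO O h
  | .lead next, h => (next O.lead).runO O h

/-- the rational functions which are hashed in the default run before `H` rational functions have
been hashed and `T` pairs of paths have been compared -/
noncomputable def Prog.logF (O : Oracle K n κ d) :
    Prog K n κ d β → ℕ → ℕ → List (Form K n) → List (Form K n)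
  | .out _, _, _, _ => []
  | .hash _ _, 0, _, _ => []
  | .hash u next, H + 1, T, h => u :: (next (flookup h u)).logF O H T (h ++ [u])
  | .path _ _ _ _ _, _, 0, _ => []
  | .path i j o o' next, H, T + 1, h => (next (O.path i j o o')).logF O H T h
  | .test t next, H, T, h => (next (O.test t)).logF O H T h
  | .lead next, H, T, h => (next O.lead).logF O H T h

/-- the comparisons of paths in the default run before `H` rational functions have been hashed and
`T` pairs of paths have been compared -/
noncomputable def Prog.logG (O : Oracle K n κ d) :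
    Prog K n κ d β → ℕ → ℕ → List (Form K n) →
      List (Fin n × Fin n × Option (Fin n) × Option (Fin n))
  | .out _, _, _, _ => []
  | .hash _ _, 0, _, _ => []
  | .hash u next, H + 1, T, h => (next (flookup h u)).logG O H T (h ++ [u])
  | .path _ _ _ _ _, _, 0, _ => []
  | .path i j o o' next, H, T + 1, h => (i, j, o, o') :: (next (O.path i j o o')).logG O H T h
  | .test t next, H, T, h => (next (O.test t)).logG O H T h
  | .lead next, H, T, h => (next O.lead).logG O H T h

lemma logF_length (O : Oracle K n κ d) (p : Prog K n κ d β) :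
    ∀ (H T : ℕ) (h : List (Form K n)), (p.logF O H T h).length ≤ H := by
  induction p with
  | out b => intro H T h; simp [Prog.logF]
  | hash u next ih =>
    intro H T h
    cases H with
    | zero => simp [Prog.logF]
    | succ H =>
      simp only [Prog.logF, List.length_cons]
      exact Nat.add_le_add_right (ih _ H T _) 1
  | path i j o o' next ih =>
    intro H T h
    cases T with
    | zero => simp [Prog.logF]
    | succ T =>
      simp only [Prog.logF]
      exact ih _ H T _
  | test t next ih => intro H T h; exact ih _ H T h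
  | lead next ih => intro H T h; exact ih _ H T h

lemma logG_length (O : Oracle K n κ d) (p : Prog K n κ d β) :
    ∀ (H T : ℕ) (h : List (Form K n)), (p.logG O H T h).length ≤ T := by
  induction p with
  | out b => intro H T h; simp [Prog.logG]
  | hash u next ih =>
    intro H T h
    cases H with
    | zero => simp [Prog.logG]
    | succ H =>
      simp only [Prog.logG]
      exact ih _ H T _
  | path i j o o' next ih =>
    intro H T h
    cases T with
    | zero => simp [Prog.logG]
    | succ T =>
      simp only [Prog.logG, List.length_cons]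
      exact Nat.add_le_add_right (ih _ H T _) 1
  | test t next ih => intro H T h; exact ih _ H T h
  | lead next ih => intro H T h; exact ih _ H T h

lemma logF_ok (O : Oracle K n κ d) {Δ : ℕ} (p : Prog K n κ d β) (hp : p.Uses Δ) :
    ∀ (H T : ℕ) (h : List (Form K n)), ∀ u ∈ p.logF O H T h, u.Ok Δ := by
  induction p with
  | out b => intro H T h u hu; simp [Prog.logF] at hu
  | hash u next ih =>
    intro H T h v hv
    cases H with
    | zero => simp [Prog.logF] at hv
    | succ H =>
      simp only [Prog.logF, List.mem_cons] at hv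
      rcases hv with hv | hv
      · rw [hv]; exact hp.1
      · exact ih _ (hp.2 _) H T _ v hv
  | path i j o o' next ih =>
    intro H T h v hv
    cases T with
    | zero => simp [Prog.logF] at hv
    | succ T =>
      simp only [Prog.logF] at hv
      exact ih _ (hp _) H T _ v hv
  | test t next ih => intro H T h; exact ih _ (hp.2 _) H T h
  | lead next ih => intro H T h; exact ih _ (hp _) H T h

lemma lookup_eq {w : Edge n → ℤ} {h : List (Form K n)} {u : Form K n}
    (H : ∀ v ∈ h, (v.frac = u.frac ↔ v.val w = u.val w)) : lookup w h u = flookup h u := by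
  funext s
  unfold lookup flookup
  apply decide_eq_decide.2
  constructor
  · rintro ⟨v, hv, he⟩
    exact ⟨v, hv, (H v (List.mem_of_getElem? hv)).2 he⟩
  · rintro ⟨v, hv, he⟩
    exact ⟨v, hv, (H v (List.mem_of_getElem? hv)).1 he⟩

/-- the run on an input which behaves generically is the default run -/
lemma run_follow (O : Oracle K n κ d) {Δ D : ℕ} {w : Edge n → ℤ}
    (hT : ∀ t : Test n κ d, t.Nondegenerate → SignType.sign (t.val w) = O.test t)
    (hL : (fun e => w e / (D : ℤ)) = O.lead) (p : Prog K n κ d β) (hp : p.Uses Δ) :
    ∀ (H T : ℕ) (h : List (Form K n)),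
      (∀ u ∈ h ++ p.logF O H T h, ∀ v ∈ h ++ p.logF O H T h,
        (u.frac = v.frac ↔ u.val w = v.val w)) →
      (∀ x ∈ p.logG O H T h, SignType.sign (pathLen w x.1 x.2.1 x.2.2.1 -
        pathLen w x.1 x.2.1 x.2.2.2) = O.path x.1 x.2.1 x.2.2.1 x.2.2.2) →
      ((H < (p.run D w h).1 ∨ T < (p.run D w h).2.1) ∧
        (H < (p.runO O h).1 ∨ T < (p.runO O h).2.1)) ∨ p.run D w h = p.runO O h := by
  induction p with
  | out b => intro H T h _ _; exact Or.inr rfl
  | hash u next ih =>
    intro H T h hF hG
    cases H with
    | zero =>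
      left
      constructor
      · left
        simp [Prog.run]
      · left
        simp [Prog.runO]
    | succ H =>
      simp only [Prog.logF] at hF
      simp only [Prog.logG] at hG
      have h1 : lookup w h u = flookup h u := by
        apply lookup_eq
        intro v hv
        exact hF v (by simp [hv]) u (by simp)
      have h2 := ih (flookup h u) (hp.2 _) H T (h ++ [u]) (by
        intro a ha b hb
        apply hF
        · simpa [List.append_assoc] using ha
        · simpa [List.append_assoc] using hb) hG
      simp only [Prog.run, Prog.runO]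
      rw [h1]
      rcases h2 with h2 | h2
      · left
        omega
      · right
        rw [h2]
  | path i j o o' next ih =>
    intro H T h hF hG
    cases T with
    | zero =>
      left
      constructor
      · right
        simp [Prog.run]
      · right
        simp [Prog.runO]
    | succ T =>
      simp only [Prog.logF] at hF
      simp only [Prog.logG] at hG
      have h1 : SignType.sign (pathLen w i j o - pathLen w i j o') = O.path i j o o' :=
        hG (i, j, o, o') (by simp)
      have h2 := ih (O.path i j o o') (hp _) H T h hF (fun x hx => hG x (by simp [hx]))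
      simp only [Prog.run, Prog.runO]
      rw [h1]
      rcases h2 with h2 | h2
      · left
        omega
      · right
        rw [h2]
  | test t next ih =>
    intro H T h hF hG
    have h1 := hT t hp.1
    have h2 := ih (O.test t) (hp.2 _) H T h hF hG
    simp only [Prog.run, Prog.runO]
    rw [h1]
    exact h2
  | lead next ih =>
    intro H T h hF hG
    have h2 := ih O.lead (hp _) H T h hF hG
    simp only [Prog.run, Prog.runO]
    rw [hL]
    exact h2

open Classical in
/-- few noises leave the default run because of an equality -/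
lemma bad_le (O : Oracle K n κ d) {Δ q : ℕ} (hq : 0 < q) (hK : Big q K) (p : Prog K n κ d β)
    (hp : p.Uses Δ) (H T : ℕ) (b : Edge n → ℤ) :
    ((box n q).filter fun ν => ¬ ∀ u ∈ p.logF O H T [], ∀ v ∈ p.logF O H T [],
      (u.frac = v.frac ↔ u.val (fun e => b e + ν e) = v.val (fun e => b e + ν e))).card * q ≤
      4 * Δ * H ^ 2 * (box n q).card := by
  set F : List (Form K n) := p.logF O H T [] with hF
  have hFl : F.length ≤ H := logF_length O p H T []
  have hFc : F.toFinset.card ≤ H := (List.toFinset_card_le _).trans hFl
  have hok : ∀ u ∈ F, u.Ok Δ := logF_ok O p hp H T []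
  have hsub : ((box n q).filter fun ν : Edge n → ℕ => ¬ ∀ u ∈ F, ∀ v ∈ F,
      (u.frac = v.frac ↔ u.val (fun e => b e + ν e) = v.val (fun e => b e + ν e))) ⊆
      (F.toFinset ×ˢ F.toFinset).biUnion fun x => (box n q).filter fun ν => ¬ (x.1.frac = x.2.frac ↔
      x.1.val (fun e => b e + ν e) = x.2.val (fun e => b e + ν e)) := by
    intro ν hν
    rw [mem_filter] at hν
    obtain ⟨h0, h1⟩ := hν
    push Not at h1
    obtain ⟨u, hu, v, hv, h2⟩ := h1
    rw [mem_biUnion]
    refine ⟨(u, v), by simp [hu, hv], mem_filter.2 ⟨h0, ?_⟩⟩
    intro h3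
    rcases h2 with h2 | h2
    · exact h2.2 (h3.1 h2.1)
    · exact h2.1 (h3.2 h2.2)
  calc _ ≤ (∑ x ∈ F.toFinset ×ˢ F.toFinset, ((box n q).filter fun ν : Edge n → ℕ =>
        ¬ (x.1.frac = x.2.frac ↔
        x.1.val (fun e => b e + ν e) = x.2.val (fun e => b e + ν e))).card) * q :=
        Nat.mul_le_mul_right _ ((card_le_card hsub).trans card_biUnion_le)
    _ = ∑ x ∈ F.toFinset ×ˢ F.toFinset, ((box n q).filter fun ν : Edge n → ℕ =>
        ¬ (x.1.frac = x.2.frac ↔
        x.1.val (fun e => b e + ν e) = x.2.val (fun e => b e + ν e))).card * q := sum_mul _ _ _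
    _ ≤ ∑ x ∈ F.toFinset ×ˢ F.toFinset, 4 * Δ * (box n q).card := by
        refine sum_le_sum fun x hx => ?_
        have hx' := mem_product.1 hx
        exact pair_le hq hK x.1 x.2 (hok _ (List.mem_toFinset.1 hx'.1))
          (hok _ (List.mem_toFinset.1 hx'.2)) b
    _ = F.toFinset.card * F.toFinset.card * (4 * Δ * (box n q).card) := by
        rw [sum_const, card_product, smul_eq_mul]
    _ ≤ H * H * (4 * Δ * (box n q).card) :=
        Nat.mul_le_mul_right _ (Nat.mul_le_mul hFc hFc)
    _ = 4 * Δ * H ^ 2 * (box n q).card := by ring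

end

end Pool.Agent.J4.H34.RH
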