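import Mathlib
import Pool.Agent.J4.H34.RH.Core

/-!
# The hard inputs
-/

set_option autoImplicit false
set_option linter.unusedSectionVars false

open Finset MeasureTheory
open scoped ENNReal

namespace Pool.Agent.J4.H34.RH

variable {n κ d : ℕ}

/-! ### The middle digits -/

/-- the order of the paths with the same ends -/
def rank {n : ℕ} : Option (Fin n) → ℤ
  | none => 0
  | some k => (k : ℕ) + 1

lemma rank_inj {o o' : Option (Fin n)} (h : rank o = rank o') : o = o' := by
  cases o with
  | none =>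
    cases o' with
    | none => rfl
    | some k => simp only [rank] at h; omega
  | some k =>
    cases o' with
    | none => simp only [rank] at h; omega
    | some k' =>
      simp only [rank] at h
      congr 1
      apply Fin.ext
      omega

/-- the usual middle digits of the edges at `k` -/
def hi (k : Fin n) : ℤ := ((n : ℤ) + 1) * ((k : ℕ) + 1) + 2

/-- the middle digits for a planted path through `k0` -/
def lo (k0 k : Fin n) : ℤ := if k < k0 then (k : ℕ) + 3 else if k = k0 then 1 else hi k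

/-- the middle digits; the path `(i, k, j)` is planted if `τ = some (i, k, j)` -/
def mid (τ : Option (Fin n × Fin n × Fin n)) : Edge n → ℤ
  | .a i k => match τ with
    | none => hi k
    | some t => if i = t.1 then lo t.2.1 k else hi k
  | .b k j => match τ with
    | none => hi k
    | some t => if j = t.2.2 then lo t.2.1 k else hi k
  | .c _ _ => 4

lemma hi_bound (k : Fin n) : (n : ℤ) + 3 ≤ hi k ∧ hi k ≤ (n : ℤ) ^ 2 + n + 2 := by
  have hk : ((k : ℕ) : ℤ) + 1 ≤ n := by
    have := k.isLt
    omega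
  unfold hi
  constructor
  · have : (0 : ℤ) ≤ ((n : ℤ) + 1) * ((k : ℕ) : ℤ) := by positivity
    linarith
  · have h1 : ((n : ℤ) + 1) * (((k : ℕ) : ℤ) + 1) ≤ ((n : ℤ) + 1) * n :=
      mul_le_mul_of_nonneg_left hk (by positivity)
    linarith

lemma lo_bound (k0 k : Fin n) : 1 ≤ lo k0 k ∧ lo k0 k ≤ (n : ℤ) ^ 2 + n + 2 := by
  have h1 := hi_bound k
  have hk := k.isLt
  have h2 : (n : ℤ) ≤ (n : ℤ) ^ 2 := by
    have : (1 : ℤ) ≤ n := by omega
    nlinarith
  unfold lo
  split_ifs with c1 c2
  · constructor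
    · omega
    · have : 1 ≤ (n : ℤ) := by omega
      have : (((k : ℕ) : ℤ)) + 1 ≤ n := by omega
      linarith
  · constructor
    · omega
    · have : (0 : ℤ) ≤ n := by omega
      linarith
  · constructor
    · linarith
    · exact h1.2

lemma mid_bound (τ : Option (Fin n × Fin n × Fin n)) (e : Edge n) :
    0 ≤ mid τ e ∧ mid τ e ≤ (n : ℤ) ^ 2 + n + 2 := by
  cases e with
  | a i k =>
    have h1 := hi_bound k
    cases τ with
    | none => exact ⟨by simp only [mid]; linarith, h1.2⟩
    | some t =>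
      have h2 := lo_bound t.2.1 k
      simp only [mid]
      split_ifs
      · exact ⟨by linarith, h2.2⟩
      · exact ⟨by linarith, h1.2⟩
  | b k j =>
    have h1 := hi_bound k
    cases τ with
    | none => exact ⟨by simp only [mid]; linarith, h1.2⟩
    | some t =>
      have h2 := lo_bound t.2.1 k
      simp only [mid]
      split_ifs
      · exact ⟨by linarith, h2.2⟩
      · exact ⟨by linarith, h1.2⟩
  | c i j =>
    have hi := i.isLt
    have h1 : (1 : ℤ) ≤ n := by omega
    simp only [mid]
    constructor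
    · norm_num
    · nlinarith

/-- the path is the planted one -/
def Hit (τ : Option (Fin n × Fin n × Fin n)) (i j : Fin n) (o : Option (Fin n)) : Prop :=
  ∃ k, τ = some (i, k, j) ∧ o = some k

lemma hi_mono {k k' : Fin n} (h : k < k') : hi k + ((n : ℤ) + 1) ≤ hi k' := by
  have h1 : (k : ℕ) + 1 ≤ (k' : ℕ) := h
  have h2 : ((k : ℕ) : ℤ) + 1 + 1 ≤ ((k' : ℕ) : ℤ) + 1 := by exact_mod_cast Nat.add_le_add_right h1 1
  have h3 : ((n : ℤ) + 1) * (((k : ℕ) : ℤ) + 1 + 1) ≤ ((n : ℤ) + 1) * (((k' : ℕ) : ℤ) + 1) :=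
    mul_le_mul_of_nonneg_left h2 (by positivity)
  unfold hi
  linarith

lemma lo_hi_mono (k0 : Fin n) {k k' : Fin n} (h : k < k') :
    lo k0 k + hi k + 1 ≤ lo k0 k' + hi k' := by
  have h1 := hi_mono h
  have h2 := hi_bound k
  have h3 := hi_bound k'
  have hk := k.isLt
  have hk' := k'.isLt
  have h4 : (k : ℕ) < (k' : ℕ) := h
  unfold lo
  split_ifs with c1 c2 c3 c4 c5 c6 c7 c8 <;>
    simp only [Fin.lt_def, Fin.ext_iff] at * <;> omega

lemma lo_lo_mono (k0 : Fin n) {k k' : Fin n} (h : k < k') (hk0 : k ≠ k0) (hk0' : k' ≠ k0) :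
    lo k0 k + lo k0 k + 1 ≤ lo k0 k' + lo k0 k' := by
  have h1 := hi_mono h
  have h2 := hi_bound k
  have h3 := hi_bound k'
  have hk := k.isLt
  have hk' := k'.isLt
  have h4 : (k : ℕ) < (k' : ℕ) := h
  unfold lo
  split_ifs with c1 c2 c3 <;>
    simp only [Fin.lt_def, Fin.ext_iff, ne_eq] at * <;> omega

lemma len_mono (τ : Option (Fin n × Fin n × Fin n)) (i j : Fin n) {o o' : Option (Fin n)}
    (h : rank o < rank o') (ho : ¬ Hit τ i j o) (ho' : ¬ Hit τ i j o') :
    pathLen (mid τ) i j o + 1 ≤ pathLen (mid τ) i j o' := by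
  cases o' with
  | none =>
    cases o with
    | none => simp [rank] at h
    | some k => simp only [rank] at h; omega
  | some k' =>
    have b' := hi_bound k'
    have hk' := k'.isLt
    cases o with
    | none =>
      cases τ with
      | none =>
        simp only [pathLen, mid]
        omega
      | some t =>
        have c := lo_bound t.2.1 k'
        simp only [pathLen, mid]
        by_cases h1 : i = t.1
        · by_cases h2 : j = t.2.2
          · have h3 : k' ≠ t.2.1 := by
              intro h3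
              apply ho'
              refine ⟨k', ?_, rfl⟩
              rw [h1, h2, h3]
            rw [if_pos h1, if_pos h2]
            unfold lo
            rw [if_neg h3]
            split_ifs <;> omega
          · rw [if_pos h1, if_neg h2]
            omega
        · rw [if_neg h1]
          split_ifs <;> omega
    | some k =>
      have hkk : k < k' := by
        simp only [rank] at h
        rw [Fin.lt_def]
        omega
      have m1 := hi_mono hkk
      cases τ with
      | none =>
        simp only [pathLen, mid]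
        omega
      | some t =>
        have m2 := lo_hi_mono t.2.1 hkk
        simp only [pathLen, mid]
        by_cases h1 : i = t.1
        · by_cases h2 : j = t.2.2
          · have h3 : k' ≠ t.2.1 := by
              intro h3
              apply ho'
              refine ⟨k', ?_, rfl⟩
              rw [h1, h2, h3]
            have h4 : k ≠ t.2.1 := by
              intro h3
              apply ho
              refine ⟨k, ?_, rfl⟩
              rw [h1, h2, h3]
            have m3 := lo_lo_mono t.2.1 hkk h4 h3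
            rw [if_pos h1, if_pos h2, if_pos h1, if_pos h2]
            exact m3
          · rw [if_pos h1, if_neg h2, if_pos h1, if_neg h2]
            exact m2
        · by_cases h2 : j = t.2.2
          · rw [if_neg h1, if_pos h2, if_neg h1, if_pos h2]
            omega
          · rw [if_neg h1, if_neg h2, if_neg h1, if_neg h2]
            omega

lemma len_planted (i k j : Fin n) :
    pathLen (mid (some (i, k, j))) i j (some k) + 2 ≤ pathLen (mid (some (i, k, j))) i j none := by
  simp [pathLen, mid, lo]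

/-! ### The weights -/

/-- the weights without the noise -/
def base (D q : ℕ) (x : Fin 3 × Fin n → ℤ) (τ : Option (Fin n × Fin n × Fin n)) (e : Edge n) : ℤ :=
  D * pot x e + 2 * q * mid τ e

/-- the weights -/
def wt (D q : ℕ) (x : Fin 3 × Fin n → ℤ) (τ : Option (Fin n × Fin n × Fin n)) (ν : Edge n → ℕ)
    (e : Edge n) : ℤ := base D q x τ e + ν e

/-- the noise of a path -/
def noise (ν : Edge n → ℕ) (i j : Fin n) : Option (Fin n) → ℤ
  | none => ν (.c i j)
  | some k => ν (.a i k) + ν (.b k j)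

lemma noise_bound {q : ℕ} {ν : Edge n → ℕ} (hν : ∀ e, ν e < q) (i j : Fin n)
    (o : Option (Fin n)) : 0 ≤ noise ν i j o ∧ noise ν i j o + 2 ≤ 2 * q := by
  cases o with
  | none =>
    have := hν (.c i j)
    simp only [noise]
    constructor <;> omega
  | some k =>
    have h1 := hν (.a i k)
    have h2 := hν (.b k j)
    simp only [noise]
    constructor <;> omega

lemma pathLen_wt (D q : ℕ) (x : Fin 3 × Fin n → ℤ) (τ : Option (Fin n × Fin n × Fin n))
    (ν : Edge n → ℕ) (i j : Fin n) (o : Option (Fin n)) :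
    pathLen (wt D q x τ ν) i j o = D * (x (0, i) - x (2, j)) + 2 * q * pathLen (mid τ) i j o +
      noise ν i j o := by
  cases o with
  | none => simp only [pathLen, wt, base, pot, noise]
  | some k =>
    simp only [pathLen, wt, base, pot, noise]
    ring

lemma wt_lt {D q : ℕ} {x : Fin 3 × Fin n → ℤ} {τ : Option (Fin n × Fin n × Fin n)}
    {ν : Edge n → ℕ} (hν : ∀ e, ν e < q) (i j : Fin n) {o o' : Option (Fin n)}
    (h : pathLen (mid τ) i j o + 1 ≤ pathLen (mid τ) i j o') :
    pathLen (wt D q x τ ν) i j o < pathLen (wt D q x τ ν) i j o' := by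
  rw [pathLen_wt, pathLen_wt]
  have h1 := noise_bound hν i j o
  have h2 := noise_bound hν i j o'
  have h3 : 2 * (q : ℤ) * (pathLen (mid τ) i j o + 1) ≤ 2 * q * pathLen (mid τ) i j o' :=
    mul_le_mul_of_nonneg_left h (by positivity)
  linarith

lemma sign_path {D q : ℕ} {x : Fin 3 × Fin n → ℤ} {τ : Option (Fin n × Fin n × Fin n)}
    {ν : Edge n → ℕ} (hν : ∀ e, ν e < q) (i j : Fin n) {o o' : Option (Fin n)}
    (ho : ¬ Hit τ i j o) (ho' : ¬ Hit τ i j o') :
    SignType.sign (pathLen (wt D q x τ ν) i j o - pathLen (wt D q x τ ν) i j o') =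
      SignType.sign (rank o - rank o') := by
  rcases lt_trichotomy (rank o) (rank o') with h | h | h
  · have h1 := wt_lt (D := D) (x := x) hν i j (len_mono τ i j h ho ho')
    rw [sign_neg (sub_neg.2 h1), sign_neg (sub_neg.2 h)]
  · rw [rank_inj h]
    simp
  · have h1 := wt_lt (D := D) (x := x) hν i j (len_mono τ i j h ho' ho)
    rw [sign_pos (sub_pos.2 h1), sign_pos (sub_pos.2 h)]

lemma strict_wt {D q : ℕ} {x : Fin 3 × Fin n → ℤ} {ν : Edge n → ℕ} (hν : ∀ e, ν e < q)
    (i j k : Fin n) : pathLen (wt D q x none ν) i j none < pathLen (wt D q x none ν) i j (some k) := by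
  apply wt_lt hν
  apply len_mono
  · simp only [rank]
    omega
  · rintro ⟨k, h, _⟩
    simp at h
  · rintro ⟨k, h, _⟩
    simp at h

lemma shortcut_wt {D q : ℕ} {x : Fin 3 × Fin n → ℤ} {ν : Edge n → ℕ} (hν : ∀ e, ν e < q)
    (i k j : Fin n) : pathLen (wt D q x (some (i, k, j)) ν) i j (some k) <
      pathLen (wt D q x (some (i, k, j)) ν) i j none := by
  apply wt_lt hν
  have := len_planted i k j
  omega

/-! ### Signs of sums of products -/

lemma prod_close {D s0 Y : ℤ} (hD : 0 ≤ D) (hs0 : s0 ≤ D) (hY : 0 ≤ Y) :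
    ∀ (δ : ℕ) (y s : Fin δ → ℤ), (∀ m, |y m| ≤ Y) → (∀ m, 0 ≤ s m ∧ s m ≤ s0) → 0 ≤ s0 →
      |∏ m, (D * y m + s m) - D ^ δ * ∏ m, y m| * D ≤ δ * (D * (Y + 1)) ^ δ * s0 ∧
      |∏ m, (D * y m + s m)| ≤ (D * (Y + 1)) ^ δ := by
  intro δ
  induction δ with
  | zero =>
    intro y s _ _ _
    simp
  | succ δ ih =>
    intro y s hy hs h0
    obtain ⟨ih1, ih2⟩ := ih (fun m => y m.castSucc) (fun m => s m.castSucc) (fun m => hy _)
      (fun m => hs _) h0
    have hyl := hy (Fin.last δ)
    have hsl := hs (Fin.last δ)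
    have hDY : 0 ≤ D * (Y + 1) := by positivity
    rw [Fin.prod_univ_castSucc, Fin.prod_univ_castSucc]
    set P := ∏ m : Fin δ, (D * y m.castSucc + s m.castSucc) with hP
    set Q := ∏ m : Fin δ, y m.castSucc with hQ
    have hlast : |D * y (Fin.last δ) + s (Fin.last δ)| ≤ D * (Y + 1) := by
      refine (abs_add_le _ _).trans ?_
      rw [abs_mul, abs_of_nonneg hD, abs_of_nonneg hsl.1]
      have : D * |y (Fin.last δ)| ≤ D * Y := mul_le_mul_of_nonneg_left hyl hD
      linarith [hsl.2]
    constructor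
    · have e : P * (D * y (Fin.last δ) + s (Fin.last δ)) - D ^ (δ + 1) * (Q * y (Fin.last δ)) =
          (P - D ^ δ * Q) * (D * y (Fin.last δ)) + P * s (Fin.last δ) := by ring
      rw [e]
      have h1 : |(P - D ^ δ * Q) * (D * y (Fin.last δ)) + P * s (Fin.last δ)| ≤
          |P - D ^ δ * Q| * (D * Y) + (D * (Y + 1)) ^ δ * s0 := by
        refine (abs_add_le _ _).trans ?_
        rw [abs_mul, abs_mul, abs_mul, abs_of_nonneg hD, abs_of_nonneg hsl.1]
        apply add_le_add
        · apply mul_le_mul_of_nonneg_left _ (abs_nonneg _)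
          exact mul_le_mul_of_nonneg_left hyl hD
        · exact mul_le_mul ih2 hsl.2 hsl.1 (by positivity)
      calc _ ≤ (|P - D ^ δ * Q| * (D * Y) + (D * (Y + 1)) ^ δ * s0) * D :=
            mul_le_mul_of_nonneg_right h1 hD
        _ = (|P - D ^ δ * Q| * D) * (D * Y) + (D * (Y + 1)) ^ δ * s0 * D := by ring
        _ ≤ (δ * (D * (Y + 1)) ^ δ * s0) * (D * Y) + (D * (Y + 1)) ^ δ * s0 * D := by
            apply add_le_add _ le_rfl
            exact mul_le_mul_of_nonneg_right ih1 (by positivity)
        _ ≤ (δ * (D * (Y + 1)) ^ δ * s0) * (D * (Y + 1)) +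
            (D * (Y + 1)) ^ δ * s0 * (D * (Y + 1)) := by
            have hDY1 : D * Y ≤ D * (Y + 1) := mul_le_mul_of_nonneg_left (by linarith) hD
            have hDY2 : D ≤ D * (Y + 1) := by nlinarith
            apply add_le_add
            · exact mul_le_mul_of_nonneg_left hDY1 (by positivity)
            · exact mul_le_mul_of_nonneg_left hDY2 (by positivity)
        _ = _ := by
            push_cast
            ring
    · rw [abs_mul, pow_succ]
      exact mul_le_mul ih2 hlast (abs_nonneg _) (by positivity)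

lemma sign_test {D s0 Y : ℤ} (hD : 0 < D) (hs0 : s0 ≤ D) (hY : 0 ≤ Y) (h0 : 0 ≤ s0)
    (hbig : κ * d * (Y + 1) ^ d * s0 < D) (t : Test n κ d) (y s : Edge n → ℤ)
    (hy : ∀ e, |y e| ≤ Y) (hs : ∀ e, 0 ≤ s e ∧ s e ≤ s0) (ht : t.val y ≠ 0) :
    SignType.sign (t.val fun e => D * y e + s e) = SignType.sign (t.val y) := by
  set δ : ℕ := (t.deg : ℕ) with hδ
  have hδd : δ ≤ d := Nat.lt_succ_iff.1 t.deg.isLt
  have hterm : ∀ l : Fin κ, |(t.sgn l : ℤ) * ∏ m, (D * y (t.fac l m) + s (t.fac l m)) -
      D ^ δ * ((t.sgn l : ℤ) * ∏ m, y (t.fac l m))| * D ≤ δ * (D * (Y + 1)) ^ δ * s0 := by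
    intro l
    have h1 := (prod_close hD.le hs0 hY δ (fun m => y (t.fac l m)) (fun m => s (t.fac l m))
      (fun m => hy _) (fun m => hs _) h0).1
    have e : (t.sgn l : ℤ) * ∏ m, (D * y (t.fac l m) + s (t.fac l m)) -
      D ^ δ * ((t.sgn l : ℤ) * ∏ m, y (t.fac l m)) =
      (t.sgn l : ℤ) * (∏ m, (D * y (t.fac l m) + s (t.fac l m)) -
        D ^ δ * ∏ m, y (t.fac l m)) := by ring
    rw [e, abs_mul]
    have h2 : |(t.sgn l : ℤ)| ≤ 1 := by
      cases t.sgn l <;> simp
    calc _ ≤ 1 * |∏ m, (D * y (t.fac l m) + s (t.fac l m)) -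
        D ^ δ * ∏ m, y (t.fac l m)| * D := by
          apply mul_le_mul_of_nonneg_right _ hD.le
          exact mul_le_mul_of_nonneg_right h2 (abs_nonneg _)
      _ ≤ _ := by rw [one_mul]; exact h1
  have hsum : |(t.val fun e => D * y e + s e) - D ^ δ * t.val y| * D ≤
      κ * (δ * (D * (Y + 1)) ^ δ * s0) := by
    unfold Test.val
    rw [mul_sum, ← sum_sub_distrib]
    calc _ ≤ (∑ l, |(t.sgn l : ℤ) * ∏ m, (D * y (t.fac l m) + s (t.fac l m)) -
          D ^ δ * ((t.sgn l : ℤ) * ∏ m, y (t.fac l m))|) * D :=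
          mul_le_mul_of_nonneg_right (abs_sum_le_sum_abs _ _) hD.le
      _ = ∑ l, |(t.sgn l : ℤ) * ∏ m, (D * y (t.fac l m) + s (t.fac l m)) -
          D ^ δ * ((t.sgn l : ℤ) * ∏ m, y (t.fac l m))| * D := sum_mul _ _ _
      _ ≤ ∑ l : Fin κ, δ * (D * (Y + 1)) ^ δ * s0 := sum_le_sum fun l _ => hterm l
      _ = _ := by simp
  have hlt : |(t.val fun e => D * y e + s e) - D ^ δ * t.val y| < D ^ δ := by
    have h1 : κ * (δ * (D * (Y + 1)) ^ δ * s0) = D ^ δ * (κ * δ * (Y + 1) ^ δ * s0) := by
      rw [mul_pow]; ring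
    have h2 : (κ : ℤ) * δ * (Y + 1) ^ δ * s0 ≤ κ * d * (Y + 1) ^ d * s0 := by
      have h3 : (Y + 1) ^ δ ≤ (Y + 1) ^ d := pow_le_pow_right₀ (by linarith) hδd
      have h4 : (δ : ℤ) ≤ d := by exact_mod_cast hδd
      gcongr
    have h3 : D ^ δ * (κ * δ * (Y + 1) ^ δ * s0) < D ^ δ * D :=
      mul_lt_mul_of_pos_left (h2.trans_lt hbig) (by positivity)
    have h4 : |(t.val fun e => D * y e + s e) - D ^ δ * t.val y| * D < D ^ δ * D := by
      rw [h1] at hsum
      exact hsum.trans_lt h3
    exact lt_of_mul_lt_mul_right h4 hD.le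
  have hDδ : 0 < D ^ δ := by positivity
  rw [abs_lt] at hlt
  rcases lt_or_gt_of_ne ht with h | h
  · rw [sign_neg h]
    apply sign_neg
    have h5 : D ^ δ * t.val y ≤ D ^ δ * (-1) := mul_le_mul_of_nonneg_left (by omega) hDδ.le
    linarith [hlt.2]
  · rw [sign_pos h]
    apply sign_pos
    have h5 : D ^ δ * 1 ≤ D ^ δ * t.val y := mul_le_mul_of_nonneg_left (by omega) hDδ.le
    linarith [hlt.1]

end Pool.Agent.J4.H34.RH
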