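import Mathlib
import Pool.Agent.J4.H34.RH.Inst

/-!
# Generic potentials
-/

set_option autoImplicit false
set_option linter.unusedSectionVars false

open Finset MeasureTheory
open scoped ENNReal

namespace Pool.Agent.J4.H34.RH

variable {n κ d : ℕ}

/-! ### The number of tests -/

/-- a test as an element of a sigma type -/
def testEquiv (n κ d : ℕ) : Test n κ d ≃
    Σ δ : Fin (d + 1), (Fin κ → SignType) × (Fin κ → Fin δ → Edge n) where
  toFun t := ⟨t.deg, t.sgn, t.fac⟩
  invFun x := ⟨x.1, x.2.1, x.2.2⟩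
  left_inv _ := rfl
  right_inv _ := rfl

instance : Fintype (Test n κ d) := Fintype.ofEquiv _ (testEquiv n κ d).symm

/-- an edge as an element of a product -/
def edgeCode : Edge n → Fin 3 × Fin n × Fin n
  | .a i k => (0, i, k)
  | .b k j => (1, k, j)
  | .c i j => (2, i, j)

lemma edgeCode_injective : Function.Injective (edgeCode (n := n)) := by
  intro e e' h
  cases e <;> cases e' <;> simp [edgeCode] at h ⊢ <;> exact h

lemma card_edge_le : Fintype.card (Edge n) ≤ 3 * n ^ 2 := by
  refine (Fintype.card_le_of_injective _ edgeCode_injective).trans ?_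
  simp only [Fintype.card_prod, Fintype.card_fin]
  apply le_of_eq
  ring

lemma card_test_le (hn : 1 ≤ n) :
    Fintype.card (Test n κ d) ≤ (d + 1) * (3 * (3 * n ^ 2) ^ d) ^ κ := by
  rw [Fintype.card_congr (testEquiv n κ d), Fintype.card_sigma]
  have h1 : ∀ δ : Fin (d + 1), Fintype.card ((Fin κ → SignType) × (Fin κ → Fin δ → Edge n)) ≤
      (3 * (3 * n ^ 2) ^ d) ^ κ := by
    intro δ
    rw [Fintype.card_prod, Fintype.card_fun, Fintype.card_fun, Fintype.card_fun]
    simp only [Fintype.card_fin]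
    have h2 : Fintype.card SignType = 3 := rfl
    rw [h2, ← mul_pow]
    apply Nat.pow_le_pow_left
    apply Nat.mul_le_mul_left
    calc Fintype.card (Edge n) ^ (δ : ℕ) ≤ (3 * n ^ 2) ^ (δ : ℕ) :=
          Nat.pow_le_pow_left card_edge_le _
      _ ≤ (3 * n ^ 2) ^ d := by
          apply Nat.pow_le_pow_right
          · positivity
          · exact Nat.lt_succ_iff.1 δ.isLt
  calc _ ≤ ∑ _δ : Fin (d + 1), (3 * (3 * n ^ 2) ^ d) ^ κ := sum_le_sum fun δ _ => h1 δ
    _ = _ := by simp

/-! ### Tests as polynomials in the potential -/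

/-- the weight given by a potential, as a polynomial -/
noncomputable def potP : Edge n → MvPolynomial (Fin 3 × Fin n) ℤ
  | .a i k => MvPolynomial.X (0, i) - MvPolynomial.X (1, k)
  | .b k j => MvPolynomial.X (1, k) - MvPolynomial.X (2, j)
  | .c i j => MvPolynomial.X (0, i) - MvPolynomial.X (2, j)

lemma eval_potP (x : Fin 3 × Fin n → ℤ) (e : Edge n) : MvPolynomial.eval x (potP e) = pot x e := by
  cases e <;> simp [potP, pot]

lemma deg_potP (e : Edge n) : (potP e).totalDegree ≤ 1 := by
  cases e <;>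
  · simp only [potP]
    refine (MvPolynomial.totalDegree_sub _ _).trans ?_
    simp [MvPolynomial.totalDegree_X]

/-- the value of a test as a polynomial in the potential -/
noncomputable def testP (t : Test n κ d) : MvPolynomial (Fin 3 × Fin n) ℤ :=
  ∑ l, MvPolynomial.C (t.sgn l : ℤ) * ∏ m, potP (t.fac l m)

lemma eval_testP (t : Test n κ d) (x : Fin 3 × Fin n → ℤ) :
    MvPolynomial.eval x (testP t) = t.val (pot x) := by
  unfold testP Test.val
  rw [map_sum]
  refine sum_congr rfl fun l _ => ?_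
  rw [map_mul, MvPolynomial.eval_C, map_prod]
  simp_rw [eval_potP]

lemma deg_testP (t : Test n κ d) : (testP t).totalDegree ≤ d := by
  apply MvPolynomial.totalDegree_finsetSum_le
  intro l _
  refine (MvPolynomial.totalDegree_mul _ _).trans ?_
  rw [MvPolynomial.totalDegree_C, zero_add]
  refine (MvPolynomial.totalDegree_finsetProd _ _).trans ?_
  refine (sum_le_sum fun m _ => deg_potP _).trans ?_
  simp only [sum_const, card_univ, Fintype.card_fin, smul_eq_mul, mul_one]
  exact Nat.lt_succ_iff.1 t.deg.isLt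

/-- offsets of the three layers -/
def off (R : ℕ) (v : Fin 3 × Fin n) : ℤ := (4 - 2 * (v.1.val : ℤ)) * R

lemma exists_pot (hn : 1 ≤ n) {R : ℕ} (hR : d * ((d + 1) * (3 * (3 * n ^ 2) ^ d) ^ κ) < R) :
    ∃ x : Fin 3 × Fin n → ℤ, (∀ t : Test n κ d, t.Nondegenerate → t.val (pot x) ≠ 0) ∧
      ∀ e, 1 ≤ pot x e ∧ pot x e ≤ 5 * R := by
  classical
  have hR0 : 0 < R := by omega
  set B : Finset (Fin 3 × Fin n → ℕ) := Fintype.piFinset fun _ => range R with hB
  have hBcard : B.card = R ^ Fintype.card (Fin 3 × Fin n) := by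
    rw [hB, Fintype.card_piFinset]
    simp
  set f : Fin 3 × Fin n → ℕ → ℤ := fun v z => off R v + z with hf
  set Z : Test n κ d → Finset (Fin 3 × Fin n → ℕ) := fun t =>
    B.filter fun ξ => MvPolynomial.eval (fun v => f v (ξ v)) (testP t) = 0 with hZ
  set N : Finset (Test n κ d) := univ.filter fun t => t.Nondegenerate with hN
  have h1 : ∀ t ∈ N, (Z t).card * R ≤ d * B.card := by
    intro t ht
    have ht' : t.Nondegenerate := (mem_filter.1 ht).2
    have hP : testP t ≠ 0 := by
      intro h
      obtain ⟨x, hx⟩ := ht'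
      rw [← eval_testP, h, map_zero] at hx
      exact hx rfl
    have h2 := sz (testP t) hP hR0 f (by
      intro v a ha b hb hab
      simp only [hf] at hab
      exact_mod_cast add_left_cancel hab)
    rw [hBcard]
    exact h2.trans (Nat.mul_le_mul_right _ (deg_testP t))
  have h2 : (N.biUnion Z).card * R < B.card * R := by
    calc (N.biUnion Z).card * R ≤ (∑ t ∈ N, (Z t).card) * R :=
          Nat.mul_le_mul_right _ card_biUnion_le
      _ = ∑ t ∈ N, (Z t).card * R := sum_mul _ _ _
      _ ≤ ∑ t ∈ N, d * B.card := sum_le_sum h1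
      _ = N.card * (d * B.card) := by rw [sum_const, smul_eq_mul]
      _ ≤ ((d + 1) * (3 * (3 * n ^ 2) ^ d) ^ κ) * (d * B.card) := by
          apply Nat.mul_le_mul_right
          exact (card_le_univ _).trans (card_test_le hn)
      _ = (d * ((d + 1) * (3 * (3 * n ^ 2) ^ d) ^ κ)) * B.card := by ring
      _ < R * B.card := by
          apply Nat.mul_lt_mul_of_pos_right hR
          rw [hBcard]
          positivity
      _ = B.card * R := mul_comm _ _
  have h3 : (N.biUnion Z).card < B.card := lt_of_mul_lt_mul_right h2 (Nat.zero_le _)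
  obtain ⟨ξ, hξ, hξ'⟩ := exists_mem_notMem_of_card_lt_card h3
  rw [hB, Fintype.mem_piFinset] at hξ
  have hξlt : ∀ v, ξ v < R := fun v => mem_range.1 (hξ v)
  refine ⟨fun v => f v (ξ v), fun t ht hzero => ?_, fun e => ?_⟩
  · apply hξ'
    rw [mem_biUnion]
    refine ⟨t, mem_filter.2 ⟨mem_univ _, ht⟩, mem_filter.2 ⟨?_, ?_⟩⟩
    · rw [hB, Fintype.mem_piFinset]
      exact hξ
    · rw [eval_testP]
      exact hzero
  · cases e with
    | a i k =>
      have a1 := hξlt (0, i)
      have a2 := hξlt (1, k)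
      simp only [pot, hf, off]
      norm_num
      constructor <;> linarith [(by exact_mod_cast a1 : ((ξ (0, i) : ℕ) : ℤ) + 1 ≤ R),
        (by exact_mod_cast a2 : ((ξ (1, k) : ℕ) : ℤ) + 1 ≤ R)]
    | b k j =>
      have a1 := hξlt (1, k)
      have a2 := hξlt (2, j)
      simp only [pot, hf, off]
      norm_num
      constructor <;> linarith [(by exact_mod_cast a1 : ((ξ (1, k) : ℕ) : ℤ) + 1 ≤ R),
        (by exact_mod_cast a2 : ((ξ (2, j) : ℕ) : ℤ) + 1 ≤ R)]
    | c i j =>
      have a1 := hξlt (0, i)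
      have a2 := hξlt (2, j)
      simp only [pot, hf, off]
      norm_num
      constructor <;> linarith [(by exact_mod_cast a1 : ((ξ (0, i) : ℕ) : ℤ) + 1 ≤ R),
        (by exact_mod_cast a2 : ((ξ (2, j) : ℕ) : ℤ) + 1 ≤ R)]

end Pool.Agent.J4.H34.RH
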