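import Mathlib
import Pool.Agent.J4.H34.RH.Pot

/-!
# Averaging
-/

set_option autoImplicit false
set_option linter.unusedSectionVars false

open Finset MeasureTheory
open scoped ENNReal

namespace Pool.Agent.J4.H34.RH

/-- averaging over the random choices -/
lemma average {ι Ω : Type} [MeasurableSpace Ω] (μ : Measure Ω) [IsProbabilityMeasure μ]
    (S : Finset ι) (E : ι → Set Ω) (hE : ∀ i ∈ S, MeasurableSet (E i)) (K : ℝ) (π : ι → ℝ)
    (hK : ∀ ω, K ≤ ∑ i ∈ S, (E i).indicator (fun _ => (1 : ℝ)) ω)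
    (hμ : ∀ i ∈ S, μ.real (E i) ≤ π i) : K ≤ ∑ i ∈ S, π i := by
  have hint : ∀ i ∈ S, Integrable ((E i).indicator (fun _ => (1 : ℝ))) μ := fun i hi =>
    (integrable_const (1 : ℝ)).indicator (hE i hi)
  have h1 : ∫ _ω, K ∂μ ≤ ∫ ω, ∑ i ∈ S, (E i).indicator (fun _ => (1 : ℝ)) ω ∂μ :=
    integral_mono (integrable_const K) (integrable_finsetSum S hint) hK
  rw [integral_finsetSum S hint] at h1
  have h2 : ∑ i ∈ S, ∫ ω, (E i).indicator (fun _ => (1 : ℝ)) ω ∂μ ≤ ∑ i ∈ S, π i := by
    refine sum_le_sum fun i hi => ?_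
    rw [integral_indicator_const _ (hE i hi)]
    simpa using hμ i hi
  have h3 : ∫ _ω, K ∂μ = K := by simp
  linarith

variable {ι : Type} {K : ι → Type} [∀ i, Field (K i)] {n κ d : ℕ} {β : Type}

/-- the triples which are touched by a path -/
def hits (i j : Fin n) : Option (Fin n) → Finset (Fin n × Fin n × Fin n)
  | none => ∅
  | some k => {(i, k, j)}

lemma hits_card (i j : Fin n) (o : Option (Fin n)) : (hits i j o).card ≤ 1 := by
  cases o <;> simp [hits]

lemma mem_hits {τ : Fin n × Fin n × Fin n} {i j : Fin n} {o : Option (Fin n)}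
    (h : Hit (some τ) i j o) : τ ∈ hits i j o := by
  obtain ⟨k, h1, h2⟩ := h
  rw [h2]
  simp only [hits, mem_singleton]
  exact Option.some.inj h1

/-- the values of the hashed rational functions behave generically -/
def AgreeF (F : List (Form K n)) (w : Edge n → ℤ) : Prop :=
  ∀ u ∈ F, ∀ v ∈ F, (u.frac = v.frac ↔ u.val w = v.val w)

/-- the planted path is touched -/
def Touched (G : List (Fin n × Fin n × Option (Fin n) × Option (Fin n)))
    (τ : Fin n × Fin n × Fin n) : Prop :=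
  ∃ x ∈ G, Hit (some τ) x.1 x.2.1 x.2.2.1 ∨ Hit (some τ) x.1 x.2.1 x.2.2.2

open Classical in
lemma touched_le (G : List (Fin n × Fin n × Option (Fin n) × Option (Fin n))) :
    ((univ : Finset (Fin n × Fin n × Fin n)).filter fun τ => Touched G τ).card ≤ 2 * G.length := by
  have h1 : ((univ : Finset (Fin n × Fin n × Fin n)).filter fun τ => Touched G τ) ⊆
      G.toFinset.biUnion fun x => hits x.1 x.2.1 x.2.2.1 ∪ hits x.1 x.2.1 x.2.2.2 := by
    intro τ hτ
    obtain ⟨x, hx, hτ⟩ := (mem_filter.1 hτ).2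
    rw [mem_biUnion]
    refine ⟨x, List.mem_toFinset.2 hx, ?_⟩
    rw [mem_union]
    rcases hτ with h | h
    · exact Or.inl (mem_hits h)
    · exact Or.inr (mem_hits h)
  calc _ ≤ ∑ x ∈ G.toFinset, (hits x.1 x.2.1 x.2.2.1 ∪ hits x.1 x.2.1 x.2.2.2).card :=
        (card_le_card h1).trans card_biUnion_le
    _ ≤ ∑ x ∈ G.toFinset, 2 := by
        refine sum_le_sum fun x _ => (card_union_le _ _).trans ?_
        have := hits_card x.1 x.2.1 x.2.2.1
        have := hits_card x.1 x.2.1 x.2.2.2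
        omega
    _ = 2 * G.toFinset.card := by rw [sum_const, smul_eq_mul, mul_comm]
    _ ≤ 2 * G.length := Nat.mul_le_mul_left _ (List.toFinset_card_le _)

/-- the default answers -/
noncomputable def orc (x : Fin 3 × Fin n → ℤ) : Oracle K n κ d where
  path _ _ o o' := SignType.sign (rank o - rank o')
  test t := SignType.sign (t.val (pot x))
  lead := pot x

/-- the parameters of the hard inputs -/
structure Par (n κ d D N q R : ℕ) (x : Fin 3 × Fin n → ℤ) : Prop where
  gen : ∀ t : Test n κ d, t.Nondegenerate → t.val (pot x) ≠ 0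
  bd : ∀ e, 1 ≤ pot x e ∧ pot x e ≤ 5 * R
  hq : 0 < q
  hR : 0 < R
  hD : (κ * d * (5 * R + 1) ^ d + 1) * (2 * q * (n ^ 2 + n + 3)) ≤ D
  hN : 6 * R * D ≤ N

section par

variable {D N q R : ℕ} {x : Fin 3 × Fin n → ℤ} (h : Par n κ d D N q R x)

include h

lemma small_bound (τ : Option (Fin n × Fin n × Fin n)) {ν : Edge n → ℕ} (hν : ∀ e, ν e < q)
    (e : Edge n) : 0 ≤ 2 * (q : ℤ) * mid τ e + ν e ∧
      2 * (q : ℤ) * mid τ e + ν e < 2 * q * (n ^ 2 + n + 3) := by
  have h1 := mid_bound τ e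
  have h2 : ((ν e : ℕ) : ℤ) < q := by exact_mod_cast hν e
  have h3 : (0 : ℤ) ≤ ν e := by positivity
  constructor
  · have := mul_nonneg (show (0 : ℤ) ≤ 2 * q by positivity) h1.1
    linarith
  · have := mul_le_mul_of_nonneg_left h1.2 (show (0 : ℤ) ≤ 2 * q by positivity)
    linarith

lemma s0_le : 2 * q * (n ^ 2 + n + 3) ≤ D := by
  refine le_trans ?_ h.hD
  exact Nat.le_mul_of_pos_left _ (by omega)

lemma D_pos : 0 < D := by
  have h1 := s0_le h
  have h2 := h.hq
  have : 0 < 2 * q * (n ^ 2 + n + 3) := by positivity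
  omega

lemma wt_eq (τ : Option (Fin n × Fin n × Fin n)) (ν : Edge n → ℕ) :
    wt D q x τ ν = fun e => (D : ℤ) * pot x e + (2 * (q : ℤ) * mid τ e + ν e) := by
  funext e
  unfold wt base
  ring

lemma valid_wt (τ : Option (Fin n × Fin n × Fin n)) {ν : Edge n → ℕ} (hν : ∀ e, ν e < q) :
    Valid N (wt D q x τ ν) := by
  intro e
  rw [wt_eq h]
  simp only
  have h1 := small_bound h τ hν e
  have h2 := h.bd e
  have h3 : (2 * q * (n ^ 2 + n + 3) : ℤ) ≤ D := by exact_mod_cast s0_le h
  have h4 : (0 : ℤ) < D := by exact_mod_cast D_pos h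
  have h5 : (6 * R * D : ℤ) ≤ N := by exact_mod_cast h.hN
  have h6 : (1 : ℤ) ≤ R := by exact_mod_cast h.hR
  constructor
  · have : (D : ℤ) * 1 ≤ D * pot x e := mul_le_mul_of_nonneg_left h2.1 h4.le
    linarith
  · have h7 : (D : ℤ) * pot x e ≤ D * (5 * R) := mul_le_mul_of_nonneg_left h2.2 h4.le
    have h8 : (D : ℤ) * 1 ≤ D * R := mul_le_mul_of_nonneg_left h6 h4.le
    nlinarith

lemma lead_wt (τ : Option (Fin n × Fin n × Fin n)) {ν : Edge n → ℕ} (hν : ∀ e, ν e < q) :
    (fun e => wt D q x τ ν e / (D : ℤ)) = pot x := by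
  funext e
  rw [wt_eq h]
  simp only
  have h1 := small_bound h τ hν e
  have h3 : (2 * q * (n ^ 2 + n + 3) : ℤ) ≤ D := by exact_mod_cast s0_le h
  have h4 : (0 : ℤ) < D := by exact_mod_cast D_pos h
  rw [Int.mul_add_ediv_left _ _ h4.ne']
  rw [Int.ediv_eq_zero_of_lt h1.1 (h1.2.trans_le h3), add_zero]

lemma test_wt (τ : Option (Fin n × Fin n × Fin n)) {ν : Edge n → ℕ} (hν : ∀ e, ν e < q)
    (t : Test n κ d) (ht : t.Nondegenerate) :
    SignType.sign (t.val (wt D q x τ ν)) = SignType.sign (t.val (pot x)) := by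
  rw [wt_eq h]
  have h3 : (2 * q * (n ^ 2 + n + 3) : ℤ) ≤ D := by exact_mod_cast s0_le h
  have h4 : (0 : ℤ) < D := by exact_mod_cast D_pos h
  have h5 : (0 : ℤ) < q := by exact_mod_cast h.hq
  apply sign_test h4 h3 (show (0 : ℤ) ≤ 5 * R by positivity) (by positivity) _ t
  · intro e
    have := h.bd e
    rw [abs_of_nonneg (by linarith)]
    exact this.2
  · intro e
    have := small_bound h τ hν e
    exact ⟨this.1, this.2.le⟩
  · exact h.gen t ht
  · have h6 : ((κ * d * (5 * R + 1) ^ d + 1) * (2 * q * (n ^ 2 + n + 3)) : ℤ) ≤ D := by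
      exact_mod_cast h.hD
    have h7 : (0 : ℤ) < 2 * q * (n ^ 2 + n + 3) := by positivity
    linarith

/-- a typical input follows the default run -/
lemma follow {Δ : ℕ} (p : Prog K n κ d β) (hp : p.Uses Δ) (H T : ℕ)
    (τ : Option (Fin n × Fin n × Fin n)) {ν : Edge n → ℕ} (hν : ∀ e, ν e < q)
    (hF : AgreeF (p.logF (orc x) H T []) (wt D q x τ ν))
    (hG : ∀ y ∈ p.logG (orc x) H T [], ¬ Hit τ y.1 y.2.1 y.2.2.1 ∧ ¬ Hit τ y.1 y.2.1 y.2.2.2) :
    ((H < p.hashes D (wt D q x τ ν) ∨ T < p.paths D (wt D q x τ ν)) ∧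
      (H < (p.runO (orc x) []).1 ∨ T < (p.runO (orc x) []).2.1)) ∨
      p.run D (wt D q x τ ν) [] = p.runO (orc x) [] := by
  apply run_follow (orc x) (fun t ht => test_wt h τ hν t ht) (lead_wt h τ hν) p hp H T []
  · exact hF
  · intro y hy
    exact sign_path hν _ _ (hG y hy).1 (hG y hy).2

/-- two typical inputs are treated in the same way -/
lemma same {Δ : ℕ} (p : Prog K n κ d β) (hp : p.Uses Δ) (H T : ℕ)
    (τ : Fin n × Fin n × Fin n) {ν : Edge n → ℕ} (hν : ∀ e, ν e < q)
    (hF0 : AgreeF (p.logF (orc x) H T []) (wt D q x none ν))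
    (hF1 : AgreeF (p.logF (orc x) H T []) (wt D q x (some τ) ν))
    (hG : ¬ Touched (p.logG (orc x) H T []) τ) (hH : p.hashes D (wt D q x none ν) ≤ H)
    (hT : p.paths D (wt D q x none ν) ≤ T) :
    p.output D (wt D q x none ν) = p.output D (wt D q x (some τ) ν) := by
  have h0 := follow h p hp H T none hν hF0 (fun y _ => ⟨by rintro ⟨k, h, _⟩; simp at h,
    by rintro ⟨k, h, _⟩; simp at h⟩)
  have h1 := follow h p hp H T (some τ) hν hF1 (fun y hy => ⟨fun hh => hG ⟨y, hy, Or.inl hh⟩,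
    fun hh => hG ⟨y, hy, Or.inr hh⟩⟩)
  have h2 : p.run D (wt D q x none ν) [] = p.runO (orc x) [] := by
    rcases h0 with h0 | h0
    · omega
    · exact h0
  have h3 : p.run D (wt D q x (some τ) ν) [] = p.runO (orc x) [] := by
    rcases h1 with h1 | h1
    · exfalso
      have h4 := h1.2
      rw [← h2] at h4
      unfold Prog.hashes at hH
      unfold Prog.paths at hT
      omega
    · exact h1
  unfold Prog.output
  rw [h2, h3]

open Classical in
/-- the exceptional pairs -/
noncomputable def exc (p : Prog K n κ d β) (H T : ℕ) :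
    Finset ((Edge n → ℕ) × (Fin n × Fin n × Fin n)) :=
  (box n q ×ˢ univ).filter fun y => ¬ AgreeF (p.logF (orc x) H T []) (wt D q x none y.1) ∨
    ¬ AgreeF (p.logF (orc x) H T []) (wt D q x (some y.2) y.1) ∨
    Touched (p.logG (orc x) H T []) y.2

open Classical in
lemma exc_le {Δ : ℕ} (hK : Big q K) (p : Prog K n κ d β) (hp : p.Uses Δ) (H T : ℕ) :
    ((exc (D := D) (q := q) (x := x) p H T).card : ℝ) ≤ (box n q).card * (n : ℝ) ^ 3 *
      (8 * Δ * H ^ 2 / q) + (box n q).card * (2 * T) := by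
  have hq : (0 : ℝ) < q := by exact_mod_cast h.hq
  set F := p.logF (orc x) H T [] with hF
  set G := p.logG (orc x) H T [] with hG
  set U : Finset (Fin n × Fin n × Fin n) := univ with hU
  have hUcard : U.card = n ^ 3 := by
    rw [hU, card_univ, Fintype.card_prod, Fintype.card_prod, Fintype.card_fin]
    ring
  have hbad : ∀ τ : Option (Fin n × Fin n × Fin n),
      (((box n q).filter fun ν => ¬ AgreeF F (wt D q x τ ν)).card : ℝ) ≤
      4 * Δ * H ^ 2 / q * (box n q).card := by
    intro τ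
    have h1 : ((box n q).filter fun ν => ¬ AgreeF F (wt D q x τ ν)).card * q ≤
        4 * Δ * H ^ 2 * (box n q).card := by
      convert bad_le (orc x) h.hq hK p hp H T (base D q x τ)
      exact Iff.rfl
    have h2 : (((box n q).filter fun ν => ¬ AgreeF F (wt D q x τ ν)).card : ℝ) * q ≤
        4 * Δ * H ^ 2 * (box n q).card := by exact_mod_cast h1
    rw [div_mul_eq_mul_div, le_div_iff₀ hq]
    exact h2
  have hsub : exc (D := D) (q := q) (x := x) p H T ⊆
      (((box n q).filter fun ν => ¬ AgreeF F (wt D q x none ν)) ×ˢ U) ∪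
      ((U.sigma fun τ => (box n q).filter fun ν => ¬ AgreeF F (wt D q x (some τ) ν)).image
        (fun y => (y.2, y.1)) ∪ (box n q ×ˢ U.filter fun τ => Touched G τ)) := by
    rintro ⟨ν, τ⟩ hy
    obtain ⟨h1, h2⟩ := mem_filter.1 hy
    have h3 : ν ∈ box n q := (mem_product.1 h1).1
    simp only at h2
    rw [mem_union, mem_union]
    rcases h2 with h2 | h2 | h2
    · exact Or.inl (mem_product.2 ⟨mem_filter.2 ⟨h3, h2⟩, mem_univ _⟩)
    · refine Or.inr (Or.inl (mem_image.2 ⟨⟨τ, ν⟩, ?_, rfl⟩))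
      rw [mem_sigma]
      exact ⟨mem_univ _, mem_filter.2 ⟨h3, h2⟩⟩
    · exact Or.inr (Or.inr (mem_product.2 ⟨h3, mem_filter.2 ⟨mem_univ _, h2⟩⟩))
  have h1 := (card_le_card hsub).trans ((card_union_le _ _).trans
    (Nat.add_le_add_left (card_union_le _ _) _))
  have h2 : ((exc (D := D) (q := q) (x := x) p H T).card : ℝ) ≤
      (((box n q).filter fun ν => ¬ AgreeF F (wt D q x none ν)) ×ˢ U).card +
      (((U.sigma fun τ => (box n q).filter fun ν => ¬ AgreeF F (wt D q x (some τ) ν)).image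
        (fun y => (y.2, y.1))).card + (box n q ×ˢ U.filter fun τ => Touched G τ).card) := by
    exact_mod_cast h1
  have h3 : ((((box n q).filter fun ν => ¬ AgreeF F (wt D q x none ν)) ×ˢ U).card : ℝ) ≤
      4 * Δ * H ^ 2 / q * (box n q).card * (n : ℝ) ^ 3 := by
    rw [card_product, hUcard]
    push_cast
    exact mul_le_mul_of_nonneg_right (hbad none) (by positivity)
  have h4 : (((U.sigma fun τ => (box n q).filter fun ν => ¬ AgreeF F (wt D q x (some τ) ν)).image
        (fun y => (y.2, y.1))).card : ℝ) ≤ 4 * Δ * H ^ 2 / q * (box n q).card * (n : ℝ) ^ 3 := by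
    have h5 : (((U.sigma fun τ => (box n q).filter fun ν =>
        ¬ AgreeF F (wt D q x (some τ) ν)).image (fun y => (y.2, y.1))).card : ℝ) ≤
        ((U.sigma fun τ => (box n q).filter fun ν => ¬ AgreeF F (wt D q x (some τ) ν)).card : ℝ) := by
      exact_mod_cast card_image_le
    refine h5.trans ?_
    rw [card_sigma]
    push_cast
    refine (sum_le_sum fun τ _ => hbad (some τ)).trans (le_of_eq ?_)
    rw [sum_const, nsmul_eq_mul, hUcard]
    push_cast
    ring
  have h5 : ((box n q ×ˢ U.filter fun τ => Touched G τ).card : ℝ) ≤ (box n q).card * (2 * T) := by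
    rw [card_product]
    push_cast
    apply mul_le_mul_of_nonneg_left _ (by positivity)
    have h6 : (U.filter fun τ => Touched G τ).card ≤ 2 * T :=
      (touched_le G).trans (Nat.mul_le_mul_left _ (logG_length _ _ _ _ _))
    exact_mod_cast h6
  have h6 : (box n q).card * (n : ℝ) ^ 3 * (8 * Δ * H ^ 2 / q) =
      4 * Δ * H ^ 2 / q * (box n q).card * (n : ℝ) ^ 3 +
      4 * Δ * H ^ 2 / q * (box n q).card * (n : ℝ) ^ 3 := by ring
  rw [h6]
  linarith

omit h in
/-- Markov's inequality -/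
lemma markov {Ω : Type} [MeasurableSpace Ω] (μ : Measure Ω) (f : Ω → ℕ) (hf : Measurable f)
    {T : ℝ} (hT : ∫⁻ ω, (f ω : ℝ≥0∞) ∂μ ≤ ENNReal.ofReal T) {rr : ℝ} (hrr : 0 < rr) :
    μ.real {ω | ⌊rr * T⌋₊ < f ω} ≤ 1 / rr := by
  set T' := ⌊rr * T⌋₊ with hT'
  have h4 := meas_ge_le_lintegral_div (μ := μ) (f := fun ω => ((f ω : ℕ) : ℝ≥0∞))
    ((measurable_from_top.comp hf).aemeasurable) (ε := ((T' + 1 : ℕ) : ℝ≥0∞)) (by
      rw [Ne, Nat.cast_eq_zero]
      omega) (ENNReal.natCast_ne_top _)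
  have h5 : {ω | T' < f ω} ⊆ {ω | ((T' + 1 : ℕ) : ℝ≥0∞) ≤ ((f ω : ℕ) : ℝ≥0∞)} := by
    intro ω hω
    change ((T' + 1 : ℕ) : ℝ≥0∞) ≤ ((f ω : ℕ) : ℝ≥0∞)
    exact_mod_cast hω
  have h6 : μ {ω | T' < f ω} ≤ ENNReal.ofReal (1 / rr) := by
    refine (measure_mono h5).trans (h4.trans ?_)
    refine (ENNReal.div_le_div_right hT _).trans ?_
    rw [← ENNReal.ofReal_natCast, ← ENNReal.ofReal_div_of_pos (by positivity)]
    apply ENNReal.ofReal_le_ofReal
    rw [div_le_div_iff₀ (by positivity) hrr]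
    have h7 := Nat.lt_floor_add_one (rr * T)
    rw [← hT'] at h7
    push_cast
    linarith
  exact ENNReal.toReal_le_of_le_ofReal (by positivity) h6

/-- the events of the averaging argument -/
def event {Ω : Type} (D q : ℕ) (x : Fin 3 × Fin n → ℤ) (Spec : (Edge n → ℤ) → β → Prop)
    (p : Ω → Prog K n κ d β) (H T : ℕ)
    (y : ((Edge n → ℕ) × (Fin n × Fin n × Fin n)) × Fin 4) : Set Ω :=
  ![{ω | ¬ Spec (wt D q x none y.1.1) ((p ω).output D (wt D q x none y.1.1))},
    {ω | ¬ Spec (wt D q x (some y.1.2) y.1.1) ((p ω).output D (wt D q x (some y.1.2) y.1.1))},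
    {ω | H < (p ω).hashes D (wt D q x none y.1.1)},
    {ω | T < (p ω).paths D (wt D q x none y.1.1)}] y.2

/-- The main inequality. -/
theorem core {Δ : ℕ} {H T : ℝ} (hn : 0 < n) (hK : Big q K) (Spec : (Edge n → ℤ) → β → Prop)
    (hsep : ∀ w w' : Edge n → ℤ, (∀ i j k, pathLen w i j none < pathLen w i j (some k)) →
      Shortcut w' → ∀ b, Spec w b → ¬ Spec w' b)
    {Ω : Type} [MeasurableSpace Ω] (μ : Measure Ω) [IsProbabilityMeasure μ]
    (p : Ω → Prog K n κ d β) (hp : Solves Δ D N Spec H T μ p) :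
    (5 / 24 : ℝ) ≤ 8 * Δ * (⌊40 * H⌋₊ : ℝ) ^ 2 / q + 2 * (⌊10 * T⌋₊ : ℝ) / (n : ℝ) ^ 3 := by
  classical
  set H' := ⌊40 * H⌋₊ with hH'
  set T' := ⌊10 * T⌋₊ with hT'
  set δ : ℝ := 8 * Δ * (H' : ℝ) ^ 2 / q + 2 * (T' : ℝ) / (n : ℝ) ^ 3 with hδ
  have hn' : (0 : ℝ) < n := by exact_mod_cast hn
  set W : Finset ((Edge n → ℕ) × (Fin n × Fin n × Fin n)) := box n q ×ˢ univ with hW
  have hWcard : (W.card : ℝ) = (box n q).card * (n : ℝ) ^ 3 := by
    rw [hW, card_product, card_univ, Fintype.card_prod, Fintype.card_prod, Fintype.card_fin]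
    push_cast
    ring
  have hBpos : (0 : ℝ) < (box n q).card := by
    rw [box_card]
    have := h.hq
    positivity
  have hWpos : (0 : ℝ) < W.card := by
    rw [hWcard]
    positivity
  have hmem : ∀ y ∈ W, ∀ e, y.1 e < q := by
    intro y hy e
    have h1 := (mem_product.1 hy).1
    rw [box, Fintype.mem_piFinset] at h1
    exact mem_range.1 (h1 e)
  have hexc : ∀ ω, ((exc (D := D) (q := q) (x := x) (p ω) H' T').card : ℝ) ≤ W.card * δ := by
    intro ω
    refine (exc_le h hK (p ω) (hp.uses ω) H' T').trans (le_of_eq ?_)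
    rw [hWcard, hδ]
    field_simp
  have key : (W.card : ℝ) - W.card * δ ≤ ∑ y ∈ W ×ˢ (univ : Finset (Fin 4)),
        (![1 / 3, 1 / 3, 1 / 40, 1 / 10] y.2 : ℝ) := by
    apply average μ _ (event D q x Spec p H' T')
    · rintro ⟨y, t⟩ hy
      have hy' : y ∈ W := (mem_product.1 hy).1
      have hν := hmem y hy'
      fin_cases t
      · exact (hp.measurable_output _ (valid_wt h none hν)).compl
      · exact (hp.measurable_output _ (valid_wt h (some y.2) hν)).compl
      · exact hp.measurable_hashes _ (valid_wt h none hν) measurableSet_Ioi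
      · exact hp.measurable_paths _ (valid_wt h none hν) measurableSet_Ioi
    · intro ω
      rw [sum_product]
      have h3 : ∀ y ∈ W, (1 : ℝ) ≤
          ∑ t : Fin 4, (event D q x Spec p H' T' (y, t)).indicator (fun _ => (1 : ℝ)) ω +
            if y ∈ exc (D := D) (q := q) (x := x) (p ω) H' T' then 1 else 0 := by
        intro y hy
        rw [Fin.sum_univ_four]
        have hnn : ∀ t : Fin 4, (0 : ℝ) ≤
            (event D q x Spec p H' T' (y, t)).indicator (fun _ => (1 : ℝ)) ω := fun t =>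
          Set.indicator_nonneg (fun _ _ => zero_le_one) ω
        have n0 := hnn 0
        have n1 := hnn 1
        have n2 := hnn 2
        have n3 := hnn 3
        have n4 : (0 : ℝ) ≤ if y ∈ exc (D := D) (q := q) (x := x) (p ω) H' T' then 1 else 0 := by
          split_ifs <;> norm_num
        by_cases c0 : Spec (wt D q x none y.1) ((p ω).output D (wt D q x none y.1))
        swap
        · have : (event D q x Spec p H' T' (y, 0)).indicator (fun _ => (1 : ℝ)) ω = 1 :=
            Set.indicator_of_mem (show ω ∈ event D q x Spec p H' T' (y, 0) from c0) _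
          linarith
        by_cases c1 : Spec (wt D q x (some y.2) y.1) ((p ω).output D (wt D q x (some y.2) y.1))
        swap
        · have : (event D q x Spec p H' T' (y, 1)).indicator (fun _ => (1 : ℝ)) ω = 1 :=
            Set.indicator_of_mem (show ω ∈ event D q x Spec p H' T' (y, 1) from c1) _
          linarith
        by_cases c2 : H' < (p ω).hashes D (wt D q x none y.1)
        · have : (event D q x Spec p H' T' (y, 2)).indicator (fun _ => (1 : ℝ)) ω = 1 :=
            Set.indicator_of_mem (show ω ∈ event D q x Spec p H' T' (y, 2) from c2) _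
          linarith
        by_cases c3 : T' < (p ω).paths D (wt D q x none y.1)
        · have : (event D q x Spec p H' T' (y, 3)).indicator (fun _ => (1 : ℝ)) ω = 1 :=
            Set.indicator_of_mem (show ω ∈ event D q x Spec p H' T' (y, 3) from c3) _
          linarith
        have c4 : y ∈ exc (D := D) (q := q) (x := x) (p ω) H' T' := by
          rw [exc, mem_filter]
          refine ⟨hy, ?_⟩
          by_contra hcon
          rw [not_or, not_or, not_not, not_not] at hcon
          have h4 := same h (p ω) (hp.uses ω) H' T' y.2 (hmem y hy) hcon.1 hcon.2.1 hcon.2.2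
            (not_lt.1 c2) (not_lt.1 c3)
          rw [← h4] at c1
          exact hsep _ _ (fun i j k => strict_wt (hmem y hy) i j k)
            ⟨y.2.1, y.2.2.2, y.2.2.1, shortcut_wt (hmem y hy) y.2.1 y.2.2.1 y.2.2.2⟩ _ c0 c1
        rw [if_pos c4]
        linarith
      have h4 := sum_le_sum h3
      rw [sum_add_distrib, sum_const, nsmul_eq_mul, mul_one] at h4
      have h5 : ∑ y ∈ W, (if y ∈ exc (D := D) (q := q) (x := x) (p ω) H' T' then (1 : ℝ) else 0) ≤
          W.card * δ := by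
        rw [sum_ite, sum_const_zero, add_zero, sum_const, nsmul_eq_mul, mul_one]
        refine le_trans ?_ (hexc ω)
        exact_mod_cast card_le_card fun x hx => (mem_filter.1 hx).2
      linarith
    · rintro ⟨y, t⟩ hy
      have hy' : y ∈ W := (mem_product.1 hy).1
      have hν := hmem y hy'
      have hcor : ∀ τ : Option (Fin n × Fin n × Fin n),
          μ.real {ω | ¬ Spec (wt D q x τ y.1) ((p ω).output D (wt D q x τ y.1))} ≤ 1 / 3 := by
        intro τ
        have h1 := hp.measurable_output _ (valid_wt h τ hν)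
        have h2 := hp.correct _ (valid_wt h τ hν)
        have h3 : {ω | ¬ Spec (wt D q x τ y.1) ((p ω).output D (wt D q x τ y.1))} =
            {ω | Spec (wt D q x τ y.1) ((p ω).output D (wt D q x τ y.1))}ᶜ := rfl
        rw [h3, probReal_compl_eq_one_sub h1]
        have h4 : (2 / 3 : ℝ) ≤
            μ.real {ω | Spec (wt D q x τ y.1) ((p ω).output D (wt D q x τ y.1))} := by
          rw [Measure.real, ← ENNReal.ofReal_le_iff_le_toReal (measure_ne_top μ _)]
          exact h2
        linarith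
      fin_cases t
      · exact hcor none
      · exact hcor (some y.2)
      · exact markov μ _ (hp.measurable_hashes _ (valid_wt h none hν))
          (hp.hashes_le _ (valid_wt h none hν)) (by norm_num)
      · exact markov μ _ (hp.measurable_paths _ (valid_wt h none hν))
          (hp.paths_le _ (valid_wt h none hν)) (by norm_num)
  have hsum : ∑ y ∈ W ×ˢ (univ : Finset (Fin 4)), (![1 / 3, 1 / 3, 1 / 40, 1 / 10] y.2 : ℝ) =
      W.card * (1 / 3 + 1 / 3 + 1 / 40 + 1 / 10) := by
    rw [sum_product]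
    simp only [Fin.sum_univ_four]
    rw [sum_const, nsmul_eq_mul]
    simp
  rw [hsum] at key
  have h1 : (W.card : ℝ) * (5 / 24) ≤ W.card * δ := by linarith
  exact le_of_mul_le_mul_left h1 hWpos

/-- The bound for the number of comparisons of paths. -/
theorem cubic {Δ H : ℕ} {T : ℝ} (hn : 0 < n) (hK : Big q K)
    (hqn : 1600000 * Δ * H ^ 2 ≤ q) (Spec : (Edge n → ℤ) → β → Prop)
    (hsep : ∀ w w' : Edge n → ℤ, (∀ i j k, pathLen w i j none < pathLen w i j (some k)) →
      Shortcut w' → ∀ b, Spec w b → ¬ Spec w' b)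
    {Ω : Type} [MeasurableSpace Ω] (μ : Measure Ω) [IsProbabilityMeasure μ]
    (p : Ω → Prog K n κ d β) (hp : Solves Δ D N Spec H T μ p) : (n : ℝ) ^ 3 ≤ 100 * T := by
  by_contra hcon
  push Not at hcon
  have h1 := core h hn hK Spec hsep μ p hp
  have hn' : (0 : ℝ) < n := by exact_mod_cast hn
  have hq' : (0 : ℝ) < q := by exact_mod_cast h.hq
  have h2 : ((⌊10 * T⌋₊ : ℕ) : ℝ) ≤ (n : ℝ) ^ 3 / 10 := by
    rcases le_or_gt 0 T with hT | hT
    · refine (Nat.floor_le (by positivity)).trans ?_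
      linarith
    · rw [Nat.floor_of_nonpos (by linarith), Nat.cast_zero]
      positivity
  have h3 : ((⌊40 * (H : ℝ)⌋₊ : ℕ) : ℝ) = 40 * H := by
    have : (40 * (H : ℝ)) = ((40 * H : ℕ) : ℝ) := by push_cast; ring
    rw [this, Nat.floor_natCast]
  have h5 : (1600000 * Δ * (H : ℝ) ^ 2) ≤ q := by exact_mod_cast hqn
  have h6 : 8 * Δ * ((⌊40 * (H : ℝ)⌋₊ : ℕ) : ℝ) ^ 2 / q ≤ 1 / 125 := by
    rw [div_le_iff₀ hq', h3]
    have h8 : 8 * Δ * (40 * (H : ℝ)) ^ 2 = 1 / 125 * (1600000 * Δ * (H : ℝ) ^ 2) := by ring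
    linarith
  have h7 : 2 * ((⌊10 * T⌋₊ : ℕ) : ℝ) / (n : ℝ) ^ 3 ≤ 1 / 5 := by
    rw [div_le_iff₀ (by positivity)]
    linarith
  linarith

end par

end Pool.Agent.J4.H34.RH
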