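import Mathlib
import Pool.Agent.J4.H34.RH.Model

/-!
# Exhaustive search
-/

set_option autoImplicit false
set_option linter.unusedSectionVars false

open Finset

namespace Pool.Agent.J4.H34.RH

variable {ι : Type} {K : ι → Type} [∀ i, Field (K i)] {n κ d : ℕ} {β : Type}

/-- change one value -/
def upd (σ : Fin n → Fin n → Option (Fin n)) (i j k : Fin n) : Fin n → Fin n → Option (Fin n) :=
  fun i' j' => if i' = i ∧ j' = j then some k else σ i' j'

/-- exhaustive search -/
def greedy (K : ι → Type) [∀ i, Field (K i)] (κ d : ℕ)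
    (g : (Fin n → Fin n → Option (Fin n)) → β) : List (Fin n × Fin n × Fin n) →
    (Fin n → Fin n → Option (Fin n)) → Prog K n κ d β
  | [], σ => .out (g σ)
  | t :: l, σ => .path t.1 t.2.1 (σ t.1 t.2.1) (some t.2.2) fun s =>
      if s = 1 then greedy K κ d g l (upd σ t.1 t.2.1 t.2.2) else greedy K κ d g l σ

lemma greedy_uses (Δ : ℕ) (g : (Fin n → Fin n → Option (Fin n)) → β)
    (l : List (Fin n × Fin n × Fin n)) :
    ∀ σ, (greedy K κ d g l σ).Uses Δ := by
  induction l with
  | nil => intro σ; exact trivial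
  | cons t l ih =>
    intro σ e
    change Prog.Uses Δ (if e = 1 then greedy K κ d g l (upd σ t.1 t.2.1 t.2.2)
      else greedy K κ d g l σ)
    split_ifs
    · exact ih _
    · exact ih _

/-- `σ i j` is an edge or a path which is shorter than the edge -/
def Inv (w : Edge n → ℤ) (σ : Fin n → Fin n → Option (Fin n)) : Prop :=
  ∀ i j, σ i j = none ∨ pathLen w i j (σ i j) < pathLen w i j none

lemma greedy_run (D : ℕ) (w : Edge n → ℤ) (g : (Fin n → Fin n → Option (Fin n)) → β)
    (l : List (Fin n × Fin n × Fin n)) :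
    ∀ (σ : Fin n → Fin n → Option (Fin n)) (h : List (Form K n)), Inv w σ →
      ((greedy K κ d g l σ).run D w h).1 = 0 ∧ ((greedy K κ d g l σ).run D w h).2.1 = l.length ∧
      ∃ σ', ((greedy K κ d g l σ).run D w h).2.2 = g σ' ∧ Inv w σ' ∧
        (∀ i j, pathLen w i j (σ' i j) ≤ pathLen w i j (σ i j)) ∧
        ∀ t ∈ l, pathLen w t.1 t.2.1 (σ' t.1 t.2.1) ≤ pathLen w t.1 t.2.1 (some t.2.2) := by
  induction l with
  | nil =>
    intro σ h hI
    exact ⟨rfl, rfl, σ, rfl, hI, fun i j => le_rfl, fun t ht => by simp at ht⟩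
  | cons t l ih =>
    intro σ h hI
    have hle : ∀ i j, pathLen w i j (σ i j) ≤ pathLen w i j none := by
      intro i j
      rcases hI i j with h1 | h1
      · rw [h1]
      · exact h1.le
    simp only [greedy, Prog.run]
    by_cases hs : pathLen w t.1 t.2.1 (some t.2.2) < pathLen w t.1 t.2.1 (σ t.1 t.2.1)
    · have h1 : SignType.sign (pathLen w t.1 t.2.1 (σ t.1 t.2.1) -
          pathLen w t.1 t.2.1 (some t.2.2)) = 1 := sign_pos (sub_pos.2 hs)
      rw [h1, if_pos rfl]
      have hI' : Inv w (upd σ t.1 t.2.1 t.2.2) := by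
        intro i j
        unfold upd
        split_ifs with hc
        · right
          rw [hc.1, hc.2]
          exact hs.trans_le (hle _ _)
        · exact hI i j
      obtain ⟨h0, h2, σ', h3, h4, h5, h6⟩ := ih (upd σ t.1 t.2.1 t.2.2) h hI'
      refine ⟨h0, by rw [h2]; simp, σ', h3, h4, fun i j => ?_, fun s hs' => ?_⟩
      · refine (h5 i j).trans ?_
        unfold upd
        split_ifs with hc
        · rw [hc.1, hc.2]
          exact hs.le
        · exact le_rfl
      · rcases List.mem_cons.1 hs' with hs' | hs'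
        · rw [hs']
          refine (h5 _ _).trans (le_of_eq ?_)
          unfold upd
          rw [if_pos ⟨rfl, rfl⟩]
        · exact h6 s hs'
    · have h1 : SignType.sign (pathLen w t.1 t.2.1 (σ t.1 t.2.1) -
          pathLen w t.1 t.2.1 (some t.2.2)) ≠ 1 := by
        intro h1
        exact hs (sub_pos.1 (sign_eq_one_iff.1 h1))
      rw [if_neg h1]
      obtain ⟨h0, h2, σ', h3, h4, h5, h6⟩ := ih σ h hI
      refine ⟨h0, by rw [h2]; simp, σ', h3, h4, h5, fun s hs' => ?_⟩
      rcases List.mem_cons.1 hs' with hs' | hs'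
      · rw [hs']
        exact (h5 _ _).trans (not_lt.1 hs)
      · exact h6 s hs'

/-- the result of exhaustive search is a shortest path for each pair -/
lemma greedy_full (D : ℕ) (w : Edge n → ℤ) (g : (Fin n → Fin n → Option (Fin n)) → β) :
    (greedy K κ d g (univ : Finset (Fin n × Fin n × Fin n)).toList fun _ _ => none).hashes D w =
      0 ∧ (greedy K κ d g (univ : Finset (Fin n × Fin n × Fin n)).toList
        fun _ _ => none).paths D w = n ^ 3 ∧
    ∃ σ', (greedy K κ d g (univ : Finset (Fin n × Fin n × Fin n)).toList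
      fun _ _ => none).output D w = g σ' ∧ Shortest w σ' ∧ Inv w σ' := by
  obtain ⟨h0, h1, σ', h2, h3, h4, h5⟩ := greedy_run (K := K) (κ := κ) (d := d) D w g
    (univ : Finset (Fin n × Fin n × Fin n)).toList (fun _ _ => none) [] (fun i j => Or.inl rfl)
  refine ⟨h0, ?_, σ', h2, ?_, h3⟩
  · unfold Prog.paths
    rw [h1, length_toList, card_univ, Fintype.card_prod, Fintype.card_prod, Fintype.card_fin]
    ring
  · intro i j o
    cases o with
    | none => exact h4 i j
    | some k => exact h5 (i, j, k) (by simp)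

theorem upper_decision (K : ι → Type) [∀ i, Field (K i)] (n κ d : ℕ) :
    ∃ p : Prog K n κ d Bool, p.Uses 0 ∧ ∀ (D : ℕ) (w : Edge n → ℤ), p.hashes D w = 0 ∧
      p.paths D w = n ^ 3 ∧ (p.output D w = true ↔ Shortcut w) := by
  classical
  refine ⟨greedy K κ d (fun σ => decide (∃ i j, σ i j ≠ none))
    (univ : Finset (Fin n × Fin n × Fin n)).toList fun _ _ => none, greedy_uses _ _ _ _,
    fun D w => ?_⟩
  obtain ⟨h0, h1, σ', h2, h3, h4⟩ := greedy_full (K := K) (κ := κ) (d := d) D w
    (fun σ : Fin n → Fin n → Option (Fin n) => decide (∃ i j, σ i j ≠ none))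
  refine ⟨h0, h1, ?_⟩
  rw [h2, decide_eq_true_iff]
  constructor
  · rintro ⟨i, j, hij⟩
    rcases h4 i j with h5 | h5
    · exact absurd h5 hij
    · obtain ⟨k, hk⟩ := Option.ne_none_iff_exists'.1 hij
      rw [hk] at h5
      exact ⟨i, j, k, h5⟩
  · rintro ⟨i, j, k, hk⟩
    refine ⟨i, j, fun h5 => ?_⟩
    have h6 := h3 i j (some k)
    rw [h5] at h6
    exact absurd hk (not_lt.2 h6)

theorem upper_search (K : ι → Type) [∀ i, Field (K i)] (n κ d : ℕ) :
    ∃ p : Prog K n κ d (Fin n → Fin n → Option (Fin n)), p.Uses 0 ∧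
      ∀ (D : ℕ) (w : Edge n → ℤ), p.hashes D w = 0 ∧ p.paths D w = n ^ 3 ∧
        Shortest w (p.output D w) := by
  refine ⟨greedy K κ d (fun σ => σ)
    (univ : Finset (Fin n × Fin n × Fin n)).toList fun _ _ => none, greedy_uses _ _ _ _,
    fun D w => ?_⟩
  obtain ⟨h0, h1, σ', h2, h3, h4⟩ := greedy_full (K := K) (κ := κ) (d := d) D w
    (fun σ : Fin n → Fin n → Option (Fin n) => σ)
  refine ⟨h0, h1, ?_⟩
  rw [h2]
  exact h3

end Pool.Agent.J4.H34.RH
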